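import Pool.Agent.N504.KB.Vl

/-! A Borsuk-Ulam theorem for spaces with chain systems. -/

set_option autoImplicit false

namespace Pool.Agent.N504.KB

open Finsupp
open Pool.Agent.H904R2 Pool.Agent.H904R2.Sph
open Pool.Agent.Helper922.HB.Sc (Sing sface sbd smallSet supported_map vert)
open Pool.Agent.W435.FB (bdl bd opn act)
open Pool.Agent.W374.FBS

/-- the functionals of the algebraic Borsuk-Ulam theorem, with equivariance only on the support -/
theorem bu_aux' {q : ℕ} (m : ℕ) (P : Type) (σ : P → P) (hq : 0 < q)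
    (η : P → ZMod q) (w : ℕ → (List P →₀ ZMod q))
    (hη : ∀ i ≤ m, ∀ l ∈ (w i).support, ∀ x ∈ l, ∀ j, η (σ^[j] x) = (tr q)^[j] (η x))
    (hw0 : bd q (w 0) = Finsupp.single [] 1) (hw : ∀ i < m, bd q (w (i + 1)) = opn q σ i (w i))
    (i : ℕ) : i ≤ m → ∃ t : List (ZMod q) → ZMod q, t [] = 0 ∧ (∀ l, Dg l → t l = 0) ∧
      (∀ c, Lf t (opn q (tr q) (i + 1) c) = 0) ∧ (∀ c, Lf t (bd q c) = 0) ∧
      Lf t (mp q η (w i)) = 1 := by
  induction i with
  | zero =>
    intro _
    set ε : List (ZMod q) → ZMod q := fun l => match l with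
      | [] => 1
      | _ :: _ => 0 with hε
    have hεcn : ∀ (x : ZMod q) c, Lf ε (cn q x c) = 0 := by
      intro x c
      have : (Lf ε).comp (cn q x) = 0 := by
        apply lin_ext
        intro l
        rw [LinearMap.comp_apply, cn_single, Lf_single]
        simp [hε]
      exact LinearMap.congr_fun this c
    have hεt : ∀ (j : ZMod q) l, ε (tl j l) = ε l := by
      intro j l
      rcases l with _ | ⟨x, l⟩ <;> rfl
    refine ⟨fun l => Lf ε (bdl q l), ?_, ?_, ?_, ?_, ?_⟩
    · change Lf ε (bdl q []) = 0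
      rw [bdl_nil, map_zero]
    · intro l hl
      rcases l with _ | ⟨x, l⟩
      · exact absurd List.isChain_nil hl
      · rcases l with _ | ⟨y, l⟩
        · exact absurd (List.isChain_singleton x) hl
        · change Lf ε (bdl q (x :: y :: l)) = 0
          rw [bdl_cons, map_sub, hεcn, Lf_single]
          simp [hε]
    · intro c
      rw [Lf_bd, bd_opn]
      generalize bd q c = c'
      have h1 : ¬ Even (0 + 1) := by decide
      have : (Lf ε).comp (opn q (tr q) (0 + 1)) = 0 := by
        apply lin_ext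
        intro l
        rw [LinearMap.comp_apply, Lf_odd _ h1]
        simp only [hεt, Finset.sum_const, Finset.card_range, nsmul_eq_mul]
        rw [ZMod.natCast_self, zero_mul]
        rfl
      exact LinearMap.congr_fun this c'
    · intro c
      rw [Lf_bd, bd_bd, map_zero]
    · rw [Lf_bd, ← mp_bd, hw0, mp_single, Lf_single]
      simp [hε]
  | succ i ih =>
    intro him
    obtain ⟨t, h0, hD, hc, hb, h1⟩ := ih (by omega)
    obtain ⟨e, heD, he⟩ := exact_step hq t h0 hD i (fun l => hc _)
    refine ⟨fun l => Lf e (bdl q l), ?_, ?_, ?_, ?_, ?_⟩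
    · change Lf e (bdl q []) = 0
      rw [bdl_nil, map_zero]
    · intro l hl
      exact dg_vanish l (Lf e) (fun l' hl' => by rw [Lf_single, heD l' hl', mul_zero]) hl
    · intro c
      rw [Lf_bd, bd_opn, opn_add_two, he]
      exact hb c
    · intro c
      rw [Lf_bd, bd_bd, map_zero]
    · rw [Lf_bd, ← mp_bd, hw i (by omega),
        ← opn_mp σ (tr q) η i (fun l hl x hx j => hη i (by omega) l hl x hx j), he]
      exact h1

/-! ### colours of finite subsets of `ι × ZMod q` -/

section Colour

variable {ι : Type} {q : ℕ}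

open Classical in
/-- colour of a subset -/
noncomputable def colr [Nonempty ι] [NeZero q] (D : Set (ι × ZMod q)) : ZMod q :=
  let l := Classical.epsilon (fun l => ∃ i, (l, i) ∈ D)
  let B := Finset.univ.filter (fun i : ZMod q => (l, i) ∈ D)
  Neg.neg ((∑ i ∈ B, i) * ((B.card : ZMod q))⁻¹)

/-- shift -/
def shD (D : Set (ι × ZMod q)) : Set (ι × ZMod q) := {p | (p.1, p.2 + 1) ∈ D}

/-- good subsets -/
def GoodD (D : Set (ι × ZMod q)) : Prop := D.Nonempty ∧ ∀ l, ∃ i, (l, i) ∉ D

theorem GoodD.sh {D : Set (ι × ZMod q)} (h : GoodD D) : GoodD (shD D) := by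
  obtain ⟨⟨p, hp⟩, h2⟩ := h
  refine ⟨⟨(p.1, p.2 - 1), ?_⟩, fun l => ?_⟩
  · change (p.1, p.2 - 1 + 1) ∈ D
    rw [sub_add_cancel]
    exact hp
  · obtain ⟨i, hi⟩ := h2 l
    refine ⟨i - 1, ?_⟩
    change (l, i - 1 + 1) ∉ D
    rw [sub_add_cancel]
    exact hi

theorem colr_sh [Nonempty ι] [Fact q.Prime] {D : Set (ι × ZMod q)} (h : GoodD D) :
    colr (shD D) = colr D + 1 := by
  classical
  have hl : (fun l : ι => ∃ i, (l, i) ∈ shD D) = fun l => ∃ i, (l, i) ∈ D := by
    funext l
    apply propext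
    constructor
    · rintro ⟨i, hi⟩
      exact ⟨i + 1, hi⟩
    · rintro ⟨i, hi⟩
      refine ⟨i - 1, ?_⟩
      change (l, i - 1 + 1) ∈ D
      rw [sub_add_cancel]
      exact hi
  unfold colr
  simp only [hl]
  set l := Classical.epsilon (fun l : ι => ∃ i, (l, i) ∈ D) with hldef
  have hspec : ∃ i, (l, i) ∈ D := by
    obtain ⟨⟨p, hp⟩, _⟩ := h
    exact Classical.epsilon_spec (p := fun l : ι => ∃ i, (l, i) ∈ D) ⟨p.1, p.2, hp⟩
  set B := Finset.univ.filter (fun i : ZMod q => (l, i) ∈ D) with hB
  have hB' : Finset.univ.filter (fun i : ZMod q => (l, i) ∈ shD D) =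
      B.map (Equiv.subRight (1 : ZMod q)).toEmbedding := by
    ext i
    simp only [Finset.mem_filter, Finset.mem_univ, true_and, Finset.mem_map, hB,
      Equiv.coe_toEmbedding, Equiv.subRight_apply]
    constructor
    · intro hi
      exact ⟨i + 1, hi, by ring⟩
    · rintro ⟨a, ha, rfl⟩
      change (l, a - 1 + 1) ∈ D
      rw [sub_add_cancel]
      exact ha
  rw [hB', Finset.sum_map, Finset.card_map]
  simp only [Equiv.coe_toEmbedding, Equiv.subRight_apply, Finset.sum_sub_distrib,
    Finset.sum_const, nsmul_eq_mul, mul_one]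
  have hcard : ((B.card : ℕ) : ZMod q) ≠ 0 := by
    intro h0
    rw [ZMod.natCast_eq_zero_iff] at h0
    have hpos : 0 < B.card := by
      rw [Finset.card_pos]
      obtain ⟨i, hi⟩ := hspec
      exact ⟨i, by simp [hB, hi]⟩
    have hlt : B.card < q := by
      have h1 : B.card < (Finset.univ : Finset (ZMod q)).card := by
        apply Finset.card_lt_card
        rw [Finset.ssubset_univ_iff]
        intro h2
        obtain ⟨i, hi⟩ := h.2 l
        have : i ∈ B := by rw [h2]; exact Finset.mem_univ i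
        exact hi (by simpa [hB] using this)
      rwa [Finset.card_univ, ZMod.card] at h1
    exact absurd (Nat.le_of_dvd hpos h0) (by omega)
  field_simp
  ring

end Colour

/-- The Borsuk-Ulam theorem for a space with a self-map of prime period `q` that has chain systems
of all lengths. -/
theorem bu_sys {X : Type} [TopologicalSpace X] {ι : Type} [Fintype ι] {q : ℕ} (hq : q.Prime)
    (c : C(X, X)) (hc : ∀ x, c^[q] x = x) (hsys : ∀ M, ∃ φ : ∀ n, Ch X n, IsSys q c M φ)
    (f : C(X, ι → ℝ)) : ∃ x, f (c x) = f x := by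
  classical
  have hfact : Fact q.Prime := ⟨hq⟩
  by_contra hno
  push Not at hno
  -- the space is nonempty
  obtain ⟨x0⟩ : Nonempty X := by
    by_contra hX
    rw [not_nonempty_iff] at hX
    obtain ⟨φ, h, _⟩ := hsys 0
    have : φ 0 = 0 := by
      ext σ
      exact (hX.false (σ (vert 0 0))).elim
    rw [this, map_zero] at h
    exact zero_ne_one h
  have hι : Nonempty ι := by
    by_contra hι
    rw [not_nonempty_iff] at hι
    exact hno x0 (Subsingleton.elim _ _)
  -- coordinates
  set g : X → ι → ZMod q → ℝ := fun x l i => f (c^[i.val] x) l with hg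
  have hgc : ∀ l i, Continuous (fun x => g x l i) := fun l i =>
    (continuous_apply l).comp (f.continuous.comp (c.continuous.iterate i.val))
  have hper : ∀ (a b : ℕ) (x : X), a % q = b % q → c^[a] x = c^[b] x := by
    have h1 : ∀ (a : ℕ) (x : X), c^[a] x = c^[a % q] x := by
      intro a x
      conv_lhs => rw [← Nat.mod_add_div a q]
      rw [Function.iterate_add_apply, Function.iterate_mul]
      congr 1
      have : ∀ n, (c^[q])^[n] x = x := by
        intro n
        induction n with
        | zero => rfl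
        | succ n ih => rw [Function.iterate_succ_apply', ih, hc]
      exact this _
    intro a b x h
    rw [h1 a, h, ← h1 b]
  have hshift : ∀ x l i, g (c x) l i = g x l (i + 1) := by
    intro x l i
    simp only [hg]
    rw [← Function.iterate_succ_apply]
    refine congrFun (congrArg f ?_) l
    apply hper
    rw [ZMod.val_add]
    have : (1 : ZMod q).val = 1 := ZMod.val_one'' hq.one_lt.ne'
    rw [this, Nat.mod_mod]
  -- maximal differences
  set d : X → ι → ZMod q → ZMod q → ℝ := fun x l i j => g x l i - g x l j with hd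
  have hdmax : ∀ x, ∃ l i j, ∀ l' i' j', d x l' i' j' ≤ d x l i j := by
    intro x
    obtain ⟨⟨l, i, j⟩, _, h⟩ := Finset.exists_max_image
      (Finset.univ : Finset (ι × ZMod q × ZMod q)) (fun p => d x p.1 p.2.1 p.2.2)
      ⟨(hι.some, 0, 0), Finset.mem_univ _⟩
    exact ⟨l, i, j, fun l' i' j' => h (l', i', j') (Finset.mem_univ _)⟩
  have hdpos : ∀ x l i j, (∀ l' i' j', d x l' i' j' ≤ d x l i j) → 0 < d x l i j := by
    intro x l i j h
    have hne := hno x
    obtain ⟨a, ha⟩ : ∃ a, f (c x) a ≠ f x a := by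
      by_contra h2
      push Not at h2
      exact hne (funext h2)
    have h0 : g x a 0 = f x a := by simp [hg]
    have h1 : g x a 1 = f (c x) a := by
      have := hshift x a 0
      rw [zero_add] at this
      rw [← this]
      simp [hg]
    rcases lt_or_gt_of_ne ha with h2 | h2
    · have h3 := h a 0 1
      have : d x a 0 1 = f x a - f (c x) a := by simp only [hd, h0, h1]
      linarith
    · have h3 := h a 1 0
      have : d x a 1 0 = f (c x) a - f x a := by simp only [hd, h0, h1]
      linarith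
  -- the set of maximisers
  set S : X → Set (ι × ZMod q) := fun x => {p | ∃ j, ∀ l' i' j', d x l' i' j' ≤ d x p.1 p.2 j}
    with hS
  have hdsh : ∀ x l i j, d (c x) l i j = d x l (i + 1) (j + 1) := by
    intro x l i j
    simp only [hd, hshift]
  have hSsh : ∀ x, S (c x) = shD (S x) := by
    intro x
    ext p
    simp only [hS, shD, Set.mem_ofPred_eq]
    constructor
    · rintro ⟨j, h⟩
      refine ⟨j + 1, fun l' i' j' => ?_⟩
      have := h l' (i' - 1) (j' - 1)
      rwa [hdsh, hdsh, sub_add_cancel, sub_add_cancel] at this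
    · rintro ⟨j, h⟩
      refine ⟨j - 1, fun l' i' j' => ?_⟩
      rw [hdsh, hdsh, sub_add_cancel]
      exact h _ _ _
  -- the cover
  set 𝒞 : Set (Set X) := {A | IsOpen A ∧ ∀ x ∈ A, ∀ y ∈ A, ∀ p ∈ S x, ∃ j, 0 < d y p.1 p.2 j}
    with h𝒞
  have hopen : ∀ C ∈ 𝒞, IsOpen C := fun C hC => hC.1
  have hcov : ∀ x : X, ∃ C ∈ 𝒞, x ∈ C := by
    intro x
    obtain ⟨l, i, j, hm⟩ := hdmax x
    have hpos := hdpos x l i j hm
    set δ := d x l i j / 8 with hδ
    have hδpos : 0 < δ := by positivity
    refine ⟨{y | ∀ a b, |g y a b - g x a b| < δ}, ⟨?_, ?_⟩, ?_⟩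
    · have : {y | ∀ a b, |g y a b - g x a b| < δ} =
          ⋂ a, ⋂ b, {y | |g y a b - g x a b| < δ} := by
        ext y
        simp
      rw [this]
      refine isOpen_iInter_of_finite fun a => isOpen_iInter_of_finite fun b => ?_
      exact isOpen_lt ((hgc a b).sub continuous_const).abs continuous_const
    · rintro x' hx' y hy p ⟨j', hj'⟩
      refine ⟨j', ?_⟩
      have h1 := hj' l i j
      have h2 := abs_lt.1 (hx' l i)
      have h3 := abs_lt.1 (hx' l j)
      have h4 := abs_lt.1 (hx' p.1 p.2)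
      have h5 := abs_lt.1 (hx' p.1 j')
      have h6 := abs_lt.1 (hy p.1 p.2)
      have h7 := abs_lt.1 (hy p.1 j')
      have e1 : d x' l i j = g x' l i - g x' l j := rfl
      have e2 : d x l i j = g x l i - g x l j := rfl
      have e3 : d x' p.1 p.2 j' = g x' p.1 p.2 - g x' p.1 j' := rfl
      have e4 : d y p.1 p.2 j' = g y p.1 p.2 - g y p.1 j' := rfl
      rw [e1, e3] at h1
      rw [e4]
      have e5 : d x l i j = 8 * δ := by rw [hδ]; ring
      linarith [h2.1, h2.2, h3.1, h3.2, h4.1, h4.2, h5.1, h5.2, h6.1, h6.2, h7.1, h7.2]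
    · intro a b
      simpa using hδpos
  -- colours of lists of points
  set D : List X → Set (ι × ZMod q) := fun s => {p | ∃ x ∈ s, p ∈ S x} with hD
  have hDsh : ∀ s, D (s.map c) = shD (D s) := by
    intro s
    ext p
    simp only [hD, Set.mem_ofPred_eq, List.mem_map, shD]
    constructor
    · rintro ⟨_, ⟨x, hx, rfl⟩, hp⟩
      rw [hSsh] at hp
      exact ⟨x, hx, hp⟩
    · rintro ⟨x, hx, hp⟩
      exact ⟨c x, ⟨x, hx, rfl⟩, by rw [hSsh]; exact hp⟩
  have hSne : ∀ x, (S x).Nonempty := by
    intro x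
    obtain ⟨l, i, j, hm⟩ := hdmax x
    exact ⟨(l, i), j, hm⟩
  have hDgood : ∀ s : List X, s ≠ [] → (∃ A ∈ 𝒞, ∀ x ∈ s, x ∈ A) → GoodD (D s) := by
    rintro s hs ⟨A, hA, hsA⟩
    obtain ⟨y, hy⟩ := List.exists_mem_of_ne_nil s hs
    refine ⟨?_, fun l => ?_⟩
    · obtain ⟨p, hp⟩ := hSne y
      exact ⟨p, y, hy, hp⟩
    · -- a minimiser of `g y l`
      obtain ⟨j0, _, hj0⟩ := Finset.exists_min_image (Finset.univ : Finset (ZMod q))
        (fun i => g y l i) ⟨0, Finset.mem_univ _⟩
      refine ⟨j0, ?_⟩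
      rintro ⟨x, hx, hp⟩
      obtain ⟨j, hj⟩ := hA.2 x (hsA x hx) y (hsA y hy) (l, j0) hp
      have h1 : 0 < g y l j0 - g y l j := hj
      have h2 := hj0 j (Finset.mem_univ j)
      linarith
  set η : List X → ZMod q := fun s => colr (D s) with hη
  have hηit : ∀ (j : ℕ) (s : List X), GoodD (D s) →
      η ((List.map c)^[j] s) = (tr q)^[j] (η s) := by
    intro j
    induction j with
    | zero => intro s _; rfl
    | succ j ih =>
      intro s hs
      rw [Function.iterate_succ_apply, Function.iterate_succ_apply]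
      have h1 : GoodD (D (s.map c)) := by rw [hDsh]; exact hs.sh
      rw [ih _ h1]
      congr 1
      simp only [hη, hDsh, tr]
      exact colr_sh hs
  -- the system
  set K : ℕ := Fintype.card (ι × ZMod q) with hK
  set m : ℕ := K + 1 with hm
  obtain ⟨φ0, hφ0⟩ := hsys m
  obtain ⟨φ, hφ, hsm⟩ := hφ0.small 𝒞 hopen hcov
  set w : ℕ → (List (List X) →₀ ZMod q) := fun i => sd q (i + 1) (vl q i (φ i)) with hw
  -- support
  have hvsupp : ∀ i ≤ m, vl q i (φ i) ∈ Finsupp.supported (ZMod q) (ZMod q)
      {l : List X | l.length = i + 1 ∧ ∃ A ∈ 𝒞, ∀ x ∈ l, x ∈ A} := by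
    intro i hi
    have := supported_map (smallSet 𝒞 i) (vl q i)
      ((Finsupp.supported (ZMod q) (ZMod q)
        {l : List X | l.length = i + 1 ∧ ∃ A ∈ 𝒞, ∀ x ∈ l, x ∈ A}).restrictScalars ℤ) (by
        rintro σ ⟨A, hA, hσ⟩
        rw [vl_single]
        change Finsupp.single (vls σ) (1 : ZMod q) ∈ Finsupp.supported (ZMod q) (ZMod q) _
        apply single_mem
        refine ⟨by simp [vls], A, hA, ?_⟩
        intro x hx
        rw [vls, List.mem_ofFn] at hx
        obtain ⟨a, rfl⟩ := hx
        exact hσ ⟨_, rfl⟩) (φ i) (hsm i hi)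
    exact this
  have hwsupp : ∀ i ≤ m, w i ∈ Finsupp.supported (ZMod q) (ZMod q)
      {F : List (List X) | F.length = i + 1 ∧ F.Pairwise (fun a b => a.Sublist b ∧ a ≠ b) ∧
        ∀ s ∈ F, GoodD (D s)} := by
    intro i hi
    refine lin_mem_on (fun l hl => ?_) (hvsupp i hi)
    obtain ⟨h1, A, hA, h2⟩ := hl
    refine Finsupp.supported_mono ?_ (sd_fl (i + 1) l h1)
    rintro F ⟨h3, h4, h5⟩
    refine ⟨h3, h4, fun s hs => hDgood s (h5 s hs).1 ⟨A, hA, fun x hx => ?_⟩⟩
    exact h2 x ((h5 s hs).2.subset hx)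
  have hw0 : bd q (w 0) = Finsupp.single [] 1 := by
    simp only [hw]
    rw [bd_sd, bd_vl_zero, hφ.1, one_smul, sd_zero_single]
  have hws : ∀ i < m, bd q (w (i + 1)) = opn q (List.map c) i (w i) := by
    intro i hi
    simp only [hw]
    rw [bd_sd, ← vl_sbd, hφ.2 i hi, vl_op, sd_opn]
  have hηw : ∀ i ≤ m, ∀ l ∈ (w i).support, ∀ x ∈ l, ∀ j,
      η ((List.map c)^[j] x) = (tr q)^[j] (η x) := by
    intro i hi l hl x hx j
    have h1 := hwsupp i hi
    rw [Finsupp.mem_supported] at h1
    exact hηit j x ((h1 hl).2.2 x hx)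
  obtain ⟨t, _, hDg, _, _, h1⟩ := bu_aux' m (List X) (List.map c) hq.pos η w hηw hw0 hws m le_rfl
  have h0 : Lf t (mp q η (w m)) = 0 := by
    refine lin_ext_on (f := (Lf t).comp (mp q η)) (g := 0) (fun F hF => ?_) (hwsupp m le_rfl)
    rw [LinearMap.comp_apply, mp_single, Lf_single, one_mul]
    apply hDg
    intro hch
    obtain ⟨h2, h3, h4⟩ := hF
    -- strictly increasing cardinalities
    have h5 : (F.map (fun s => (D s).ncard)).IsChain (· < ·) := by
      have h6 : F.IsChain (fun a b => a.Sublist b) :=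
        (h3.imp (fun h => h.1)).isChain
      rw [List.isChain_map] at hch ⊢
      have h7 : F.IsChain (fun a b => (a.Sublist b) ∧ η a ≠ η b) := by
        clear h2 h3 h4 h1
        induction F with
        | nil => exact List.isChain_nil
        | cons a F ih =>
          cases F with
          | nil => exact List.isChain_singleton _
          | cons b F =>
            rw [List.isChain_cons_cons] at hch h6 ⊢
            exact ⟨⟨h6.1, hch.1⟩, ih hch.2 h6.2⟩
      refine h7.imp ?_
      rintro a b ⟨hab, hne⟩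
      apply Set.ncard_lt_ncard _ (Set.toFinite _)
      refine ⟨?_, fun hba => hne ?_⟩
      · rintro p ⟨x, hx, hp⟩
        exact ⟨x, hab.subset hx, hp⟩
      · have : D a = D b := Set.Subset.antisymm (by
          rintro p ⟨x, hx, hp⟩
          exact ⟨x, hab.subset hx, hp⟩) hba
        simp only [hη, this]
    have h6 : (F.map (fun s => (D s).ncard)).Pairwise (· < ·) :=
      List.isChain_iff_pairwise.1 h5
    have h7 : (F.map (fun s => (D s).ncard)).Nodup := h6.imp (fun h => h.ne)
    have h8 : (F.map (fun s => (D s).ncard)).toFinset ⊆ Finset.range (K + 1) := by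
      intro n hn
      rw [List.mem_toFinset, List.mem_map] at hn
      obtain ⟨s, _, rfl⟩ := hn
      rw [Finset.mem_range, Nat.lt_succ_iff]
      have := Set.ncard_le_ncard (Set.subset_univ (D s)) (Set.toFinite _)
      rwa [Set.ncard_univ, Nat.card_eq_fintype_card] at this
    have h9 := Finset.card_le_card h8
    rw [List.toFinset_card_of_nodup h7, List.length_map, h2, Finset.card_range] at h9
    omega
  rw [h0] at h1
  exact zero_ne_one h1

end Pool.Agent.N504.KB
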