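import Pool.Agent.TH650.Emb.Bridge

/-! Self-maps acting on Mathlib's singular homology as multiplication by an integer. -/

set_option autoImplicit false

open CategoryTheory AlgebraicTopology

namespace Pool.Agent.N504.KB

open Pool.Agent.H904R2 (Ch IsCyc IsBdy RAcyc psh)
open Pool.Agent.TH650.Emb.BrAux Pool.Agent.TH592.Nag
open Pool.Agent.TH650.Emb (HZ HZmap)

theorem exists_of_π_zero (K : ChainComplex (ModuleCat.{0} ℤ) ℕ) (n : ℕ) (z : K.cycles n)
    (hz : (K.homologyπ n).hom z = 0) :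
    ∃ y : K.X (n + 1), (K.toCycles (n + 1) n).hom y = z := by
  have hex : (ShortComplex.mk (K.toCycles (n + 1) n) (K.homologyπ n)
      (K.toCycles_comp_homologyπ (n + 1) n)).Exact := by
    apply ShortComplex.exact_of_g_is_cokernel
    exact K.homologyIsCokernel (n + 1) n (by simp)
  rw [ShortComplex.moduleCat_exact_iff] at hex
  exact hex z hz

theorem deg_elem {X : Type} [TopologicalSpace X] (f : C(X, X)) (n : ℕ) (d : ℤ)
    (h : HZmap (n + 1) f = d • 𝟙 (HZ (n + 1) X)) (z : Ch X (n + 1)) (hz : IsCyc (n + 1) z) :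
    IsBdy (n + 1) (psh f (n + 1) z - d • z) := by
  have hmap : HZmap (n + 1) f = HomologicalComplex.homologyMap (kmap f) (n + 1) := rfl
  obtain ⟨zc, hzc⟩ := exists_cycle (KK ℤ X) (n + 1) (toC ℤ X (n + 1) z)
    ((cyc_iff z).1 ((mem_cyc (by omega) z).2 hz))
  have h1 : (HomologicalComplex.homologyMap (kmap f) (n + 1)).hom
      (((KK ℤ X).homologyπ (n + 1)).hom zc) =
      ((KK ℤ X).homologyπ (n + 1)).hom
        ((HomologicalComplex.cyclesMap (kmap f) (n + 1)).hom zc) := by
    rw [← ModuleCat.comp_apply, ← ModuleCat.comp_apply,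
      HomologicalComplex.homologyπ_naturality]
  have h2 : (HomologicalComplex.homologyMap (kmap f) (n + 1)).hom
      (((KK ℤ X).homologyπ (n + 1)).hom zc) = d • ((KK ℤ X).homologyπ (n + 1)).hom zc := by
    rw [← hmap, h]
    rfl
  have h3 : ((KK ℤ X).homologyπ (n + 1)).hom
      ((HomologicalComplex.cyclesMap (kmap f) (n + 1)).hom zc - d • zc) = 0 := by
    rw [map_sub, map_zsmul, ← h1, h2, sub_self]
  obtain ⟨y, hy⟩ := exists_of_π_zero (KK ℤ X) (n + 1) _ h3
  refine ⟨(ofC ℤ X (n + 2)).hom y, ?_⟩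
  apply toC_injective (R := ℤ)
  rw [← bd_eq, ← d_toC, toC_ofC]
  have h4 := congrArg ((KK ℤ X).iCycles (n + 1)).hom hy
  rw [← ModuleCat.comp_apply, HomologicalComplex.toCycles_i, map_sub, map_zsmul,
    ← ModuleCat.comp_apply, HomologicalComplex.cyclesMap_i, ModuleCat.comp_apply, hzc,
    kmap_toC] at h4
  rw [h4, map_sub, map_zsmul]

end Pool.Agent.N504.KB
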