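import Pool.Agent.N504.KB.Pow

/-! A normal subgroup of `SU(2)` that contains a noncentral diagonal element is everything. -/

set_option autoImplicit false

namespace Pool.Agent.N504.KB

open Matrix
open scoped ComplexConjugate

theorem inv_mul_00 (g h : SU2) :
    (g⁻¹ * h).1 0 0 = conj (g.1 0 0) * h.1 0 0 + conj (g.1 1 0) * h.1 1 0 := by
  rw [mul_00, inv_00, inv_10, map_neg]; ring

theorem inv_mul_10 (g h : SU2) :
    (g⁻¹ * h).1 1 0 = - g.1 1 0 * h.1 0 0 + g.1 0 0 * h.1 1 0 := by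
  rw [mul_10, inv_00, inv_10, Complex.conj_conj]

theorem exists_diag (u : SU2) : ∃ (g : SU2) (l : ℂ) (hl : Complex.normSq l = 1),
    u = g * dg l hl * g⁻¹ := by
  obtain ⟨l, hl⟩ := Module.End.exists_eigenvalue (Matrix.toLin' u.1)
  obtain ⟨v, hv⟩ := hl.exists_hasEigenvector
  have h1 : u.1 *ᵥ v = l • v := by
    have := hv.apply_eq_smul
    rwa [Matrix.toLin'_apply] at this
  have hv0 : v ≠ 0 := hv.2
  set g := mkS (v 0 / (nrm v : ℂ)) (v 1 / (nrm v : ℂ)) (normal_unit hv0) with hg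
  have hn : (nrm v : ℂ) ≠ 0 := by exact_mod_cast (nrm_pos hv0).ne'
  have e0 : (u * g).1 0 0 = l * g.1 0 0 := by
    have h2 := congrFun h1 0
    simp only [Matrix.mulVec, dotProduct, Fin.sum_univ_two, Pi.smul_apply, smul_eq_mul] at h2
    change (u.1 * g.1) 0 0 = _
    rw [Matrix.mul_apply, Fin.sum_univ_two, hg, mkS_00, mkS_10]
    field_simp
    linear_combination h2
  have e1 : (u * g).1 1 0 = l * g.1 1 0 := by
    have h2 := congrFun h1 1
    simp only [Matrix.mulVec, dotProduct, Fin.sum_univ_two, Pi.smul_apply, smul_eq_mul] at h2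
    change (u.1 * g.1) 1 0 = _
    rw [Matrix.mul_apply, Fin.sum_univ_two, hg, mkS_00, mkS_10]
    field_simp
    linear_combination h2
  have hgn : conj (g.1 0 0) * g.1 0 0 + conj (g.1 1 0) * g.1 1 0 = 1 := by
    rw [← Complex.normSq_eq_conj_mul_self, ← Complex.normSq_eq_conj_mul_self]
    exact_mod_cast su2_norm g
  have f0 : (g⁻¹ * (u * g)).1 0 0 = l := by
    rw [inv_mul_00, e0, e1]
    linear_combination l * hgn
  have f1 : (g⁻¹ * (u * g)).1 1 0 = 0 := by
    rw [inv_mul_10, e0, e1]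
    ring
  have hl1 : Complex.normSq l = 1 := by
    have := su2_norm (g⁻¹ * (u * g))
    rw [f0, f1] at this
    simpa using this
  refine ⟨g, l, hl1, ?_⟩
  have h3 : g⁻¹ * (u * g) = dg l hl1 := su2_ext f0 f1
  rw [← h3]
  group

/-- half of the trace -/
theorem trace_eq (u : SU2) : u.1.trace = ((2 * (u.1 0 0).re : ℝ) : ℂ) := by
  rw [Matrix.trace_fin_two, su2_11, Complex.add_conj]

theorem re_conj (g u : SU2) : ((g * u * g⁻¹).1 0 0).re = (u.1 0 0).re := by
  have h1 : (g * u * g⁻¹).1.trace = u.1.trace := by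
    change (g.1 * u.1 * (g⁻¹).1).trace = _
    rw [Matrix.trace_mul_comm, ← mul_assoc]
    have : (g⁻¹).1 * g.1 = 1 := congrArg Subtype.val (inv_mul_cancel g)
    rw [this, one_mul]
  rw [trace_eq, trace_eq] at h1
  have h2 : 2 * ((g * u * g⁻¹).1 0 0).re = 2 * (u.1 0 0).re := by exact_mod_cast h1
  linarith

theorem dg_weyl (l : ℂ) (hl : Complex.normSq l = 1) :
    mkS 0 1 (by simp) * dg l hl * (mkS 0 1 (by simp))⁻¹ =
      dg (conj l) (by rw [Complex.normSq_conj, hl]) := by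
  apply su2_ext
  · rw [mul_00, mul_00, mul_10, inv_00, inv_10]
    simp
  · rw [mul_10, mul_00, mul_10, inv_00, inv_10]
    simp

theorem unit_re {l m : ℂ} (hl : Complex.normSq l = 1) (hm : Complex.normSq m = 1)
    (h : l.re = m.re) : l = m ∨ l = conj m := by
  rw [Complex.normSq_apply] at hl hm
  have h1 : (l.im - m.im) * (l.im + m.im) = 0 := by
    rw [h] at hl
    nlinarith
  rcases mul_eq_zero.1 h1 with h2 | h2
  · left
    exact Complex.ext h (by linarith)
  · right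
    exact Complex.ext (by simpa using h) (by simp; linarith)

theorem comm_re (ζ : ℂ) (h : Complex.normSq ζ = 1) (a b : ℝ) (hab : a ^ 2 + b ^ 2 = 1) :
    ((dg ζ h * mkS a b (by
      rw [Complex.normSq_ofReal, Complex.normSq_ofReal, ← sq, ← sq, hab]) * (dg ζ h)⁻¹ *
      (mkS a b (by
        rw [Complex.normSq_ofReal, Complex.normSq_ofReal, ← sq, ← sq, hab]))⁻¹).1 0 0).re =
      a ^ 2 + (ζ ^ 2).re * b ^ 2 := by
  set x := mkS a b (by
      rw [Complex.normSq_ofReal, Complex.normSq_ofReal, ← sq, ← sq, hab]) with hx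
  have hζ : ζ * conj ζ = 1 := by
    rw [Complex.mul_conj]; exact_mod_cast h
  have a0 : (dg ζ h * x).1 0 0 = ζ * a := by rw [dg_mul_00, hx, mkS_00]
  have a1 : (dg ζ h * x).1 1 0 = conj ζ * b := by rw [dg_mul_10, hx, mkS_10]
  have b0 : (dg ζ h * x * (dg ζ h)⁻¹).1 0 0 = a := by
    rw [mul_00, a0, a1, inv_00, inv_10, dg_00, dg_10]
    linear_combination (a : ℂ) * hζ
  have b1 : (dg ζ h * x * (dg ζ h)⁻¹).1 1 0 = conj ζ ^ 2 * b := by
    rw [mul_10, a0, a1, inv_00, inv_10, dg_00, dg_10]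
    ring
  have e : (dg ζ h * x * (dg ζ h)⁻¹ * x⁻¹).1 0 0 = ((a ^ 2 : ℝ) : ℂ) + ζ ^ 2 * ((b ^ 2 : ℝ) : ℂ) := by
    rw [mul_00, b0, b1, inv_00, inv_10, hx, mkS_00, mkS_10, Complex.conj_ofReal, map_mul,
      Complex.conj_ofReal, map_pow, Complex.conj_conj]
    push_cast
    ring
  rw [e, Complex.add_re, Complex.ofReal_re, Complex.mul_re, Complex.ofReal_re, Complex.ofReal_im]
  ring

theorem normal_top (N : Subgroup SU2) [hN : N.Normal] (ζ : ℂ) (h : Complex.normSq ζ = 1)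
    (hζ : ζ ^ 2 ≠ 1) (hc : dg ζ h ∈ N) : N = ⊤ := by
  have hn2 : Complex.normSq (ζ ^ 2) = 1 := by rw [map_pow, h, one_pow]
  have hre : (ζ ^ 2).re < 1 := by
    rw [Complex.normSq_apply] at hn2
    by_contra hcon
    have h1 : 1 ≤ (ζ ^ 2).re := not_lt.1 hcon
    have h2 : (ζ ^ 2).im * (ζ ^ 2).im ≤ 0 := by nlinarith
    have h3 : (ζ ^ 2).im = 0 := by nlinarith [mul_self_nonneg (ζ ^ 2).im]
    have h4 : (ζ ^ 2).re = 1 := by
      rw [h3] at hn2
      nlinarith
    exact hζ (Complex.ext h4 h3)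
  have key : ∀ u : SU2, (ζ ^ 2).re < (u.1 0 0).re → u ∈ N := by
    intro u hu
    obtain ⟨g, l, hl, rfl⟩ := exists_diag u
    rw [re_conj, dg_00] at hu
    have hl1 : l.re ≤ 1 := by
      rw [Complex.normSq_apply] at hl
      nlinarith [mul_self_nonneg l.im, mul_self_nonneg (l.re - 1)]
    apply hN.conj_mem
    set s : ℝ := (1 - l.re) / (1 - (ζ ^ 2).re) with hs
    have hd : 0 < 1 - (ζ ^ 2).re := by linarith
    have hs0 : 0 ≤ s := div_nonneg (by linarith) hd.le
    have hs1 : s ≤ 1 := (div_le_one hd).2 (by linarith)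
    have hab : (Real.sqrt (1 - s)) ^ 2 + (Real.sqrt s) ^ 2 = 1 := by
      rw [Real.sq_sqrt (by linarith), Real.sq_sqrt hs0]; ring
    have hcm := comm_re ζ h (Real.sqrt (1 - s)) (Real.sqrt s) hab
    set x := mkS (Real.sqrt (1 - s) : ℂ) (Real.sqrt s : ℂ) (by
      rw [Complex.normSq_ofReal, Complex.normSq_ofReal, ← sq, ← sq, hab]) with hx
    rw [Real.sq_sqrt (by linarith), Real.sq_sqrt hs0] at hcm
    have hcm2 : ((dg ζ h * x * (dg ζ h)⁻¹ * x⁻¹).1 0 0).re = l.re := by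
      rw [hcm, hs]
      field_simp
      ring
    have hmem : dg ζ h * x * (dg ζ h)⁻¹ * x⁻¹ ∈ N := by
      have h1 : x * (dg ζ h)⁻¹ * x⁻¹ ∈ N := hN.conj_mem _ (N.inv_mem hc) x
      have h2 := N.mul_mem hc h1
      have h3 : dg ζ h * (x * (dg ζ h)⁻¹ * x⁻¹) = dg ζ h * x * (dg ζ h)⁻¹ * x⁻¹ := by group
      rwa [h3] at h2
    obtain ⟨g', l', hl', he⟩ := exists_diag (dg ζ h * x * (dg ζ h)⁻¹ * x⁻¹)
    rw [he] at hmem hcm2
    rw [re_conj, dg_00] at hcm2
    have h4 : dg l' hl' ∈ N := by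
      have := hN.conj_mem _ hmem g'⁻¹
      have h5 : g'⁻¹ * (g' * dg l' hl' * g'⁻¹) * g'⁻¹⁻¹ = dg l' hl' := by group
      rwa [h5] at this
    rcases unit_re hl hl' hcm2.symm with h5 | h5
    · subst h5
      exact h4
    · subst h5
      have := hN.conj_mem _ h4 (mkS 0 1 (by simp))
      rw [dg_weyl] at this
      exact this
  have hopen : IsOpen (N : Set SU2) := by
    apply Subgroup.isOpen_of_mem_nhds (g := 1)
    have h1 : {u : SU2 | (ζ ^ 2).re < (u.1 0 0).re} ∈ nhds (1 : SU2) := by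
      apply IsOpen.mem_nhds
      · exact isOpen_lt continuous_const (Complex.continuous_re.comp continuous_00)
      · change (ζ ^ 2).re < ((1 : SU2).1 0 0).re
        rw [one_00]
        simpa using hre
    exact Filter.mem_of_superset h1 key
  have hclosed : IsClosed (N : Set SU2) := Subgroup.isClosed_of_isOpen N hopen
  have huniv : (N : Set SU2) = Set.univ := by
    apply IsClopen.eq_univ ⟨hclosed, hopen⟩
    exact ⟨1, N.one_mem⟩
  exact SetLike.coe_injective huniv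

end Pool.Agent.N504.KB
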