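import Pool.Agent.N504.KB.Defs
import Pool.Agent.N504.KB.Nrm

/-! Universal bundles: translation function; from isomorphisms of associated bundles to families
of homeomorphisms. -/

set_option autoImplicit false

namespace Pool.Agent.N504.KB

open Pool.Agent.N504.Kinetic (UniversalBundle SU2Action Assoc Pullback orbitSetoid HasLoopDegree
  HasDegree)

variable {P B : Type} [TopologicalSpace P] [TopologicalSpace B]
  [MulAction SU2 P] [ContinuousSMul SU2 P]

theorem free {E : UniversalBundle P B} {g : SU2} {a : P} (h : g • a = a) : g = 1 := by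
  obtain ⟨U, _, hb, φ, h1, h2⟩ := E.locally_trivial (E.π a)
  obtain ⟨x, hx⟩ := φ.surjective ⟨a, hb⟩
  have h4 : (φ (x.1, x.2) : P) = a := congrArg Subtype.val hx
  have h3 := h2 x.1 g x.2
  rw [h4, h, ← h4] at h3
  have h5 : φ (x.1, g * x.2) = φ (x.1, x.2) := Subtype.ext h3
  have h6 := congrArg Prod.snd (φ.injective h5)
  exact mul_eq_right.1 h6

theorem free' (E : UniversalBundle P B) {g h : SU2} {a : P} (he : g • a = h • a) : g = h := by
  have h1 : (h⁻¹ * g) • a = a := by rw [mul_smul, he, inv_smul_smul]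
  have h2 := free (E := E) h1
  rw [inv_mul_eq_one] at h2
  exact h2.symm

theorem exists_trans (E : UniversalBundle P B) {a b : P} (h : E.π a = E.π b) :
    ∃ g : SU2, g • a = b := by
  obtain ⟨U, _, hb, φ, h1, h2⟩ := E.locally_trivial (E.π a)
  obtain ⟨x, hx⟩ := φ.surjective ⟨a, hb⟩
  obtain ⟨y, hy⟩ := φ.surjective ⟨b, by
    change E.π b ∈ U
    rw [← h]; exact hb⟩
  have hx' : (φ (x.1, x.2) : P) = a := congrArg Subtype.val hx
  have hy' : (φ (y.1, y.2) : P) = b := congrArg Subtype.val hy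
  have hxy : x.1 = y.1 := by
    apply Subtype.ext
    rw [← h1 x, ← h1 y]
    change E.π (φ (x.1, x.2)) = E.π (φ (y.1, y.2))
    rw [hx', hy', h]
  refine ⟨y.2 * x.2⁻¹, ?_⟩
  rw [← hx', ← h2, inv_mul_cancel_right, ← hy', hxy]

/-- pairs of points in the same fibre -/
abbrev Fp (E : UniversalBundle P B) : Type := {z : P × P // E.π z.1 = E.π z.2}

/-- translation function: `δ (a, b) • a = b` -/
noncomputable def dlt (E : UniversalBundle P B) (z : Fp E) : SU2 :=
  (exists_trans E z.2).choose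

theorem dlt_smul (E : UniversalBundle P B) (z : Fp E) : dlt E z • z.1.1 = z.1.2 :=
  (exists_trans E z.2).choose_spec

theorem dlt_eq (E : UniversalBundle P B) (z : Fp E) {g : SU2} (h : g • z.1.1 = z.1.2) :
    dlt E z = g := by
  apply free' E (a := z.1.1)
  rw [dlt_smul, h]

theorem continuous_dlt (E : UniversalBundle P B) : Continuous (dlt E) := by
  rw [continuous_iff_continuousAt]
  intro z0
  obtain ⟨U, hU, hb, φ, h1, h2⟩ := E.locally_trivial (E.π z0.1.1)
  set O : Set (Fp E) := {z | E.π z.1.1 ∈ U} with hO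
  have hOo : IsOpen O := hU.preimage (by fun_prop)
  have hz0 : z0 ∈ O := hb
  apply ContinuousOn.continuousAt _ (hOo.mem_nhds hz0)
  rw [continuousOn_iff_continuous_domRestrict]
  have hx : ∀ z : O, z.1.1.1 ∈ E.π ⁻¹' U := fun z => z.2
  have hy : ∀ z : O, z.1.1.2 ∈ E.π ⁻¹' U := fun z => by
    change E.π z.1.1.2 ∈ U
    rw [← z.1.2]; exact z.2
  have e : O.domRestrict (dlt E) = fun z : O =>
      (φ.symm ⟨z.1.1.2, hy z⟩).2 * ((φ.symm ⟨z.1.1.1, hx z⟩).2)⁻¹ := by
    funext z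
    apply dlt_eq
    set x := φ.symm ⟨z.1.1.1, hx z⟩ with hxd
    set y := φ.symm ⟨z.1.1.2, hy z⟩ with hyd
    have hx' : (φ (x.1, x.2) : P) = z.1.1.1 := by
      change (φ x : P) = _
      rw [hxd, φ.apply_symm_apply]
    have hy' : (φ (y.1, y.2) : P) = z.1.1.2 := by
      change (φ y : P) = _
      rw [hyd, φ.apply_symm_apply]
    have hxy : x.1 = y.1 := by
      apply Subtype.ext
      rw [← h1 x, ← h1 y]
      change E.π (φ (x.1, x.2)) = E.π (φ (y.1, y.2))
      rw [hx', hy', z.1.2]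
    rw [← hx', ← h2, inv_mul_cancel_right, ← hy', hxy]
  rw [e]
  have hc1 : Continuous fun z : O => (⟨z.1.1.2, hy z⟩ : E.π ⁻¹' U) := by fun_prop
  have hc2 : Continuous fun z : O => (⟨z.1.1.1, hx z⟩ : E.π ⁻¹' U) := by fun_prop
  exact (continuous_snd.comp (φ.symm.continuous.comp hc1)).mul
    (continuous_snd.comp (φ.symm.continuous.comp hc2)).inv

variable {W : Type} [TopologicalSpace W]

/-- class of a pair -/
def cl (ρ : SU2Action W) (x : P × W) : Assoc P ρ := Quotient.mk (orbitSetoid P ρ) x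

omit [ContinuousSMul SU2 P] in
theorem cl_eq {ρ : SU2Action W} {x y : P × W} :
    cl ρ x = cl ρ y ↔ ∃ g : SU2, g • x.1 = y.1 ∧ ρ.hom g x.2 = y.2 := by
  exact (Quotient.eq (r := orbitSetoid P ρ)).trans Iff.rfl

omit [ContinuousSMul SU2 P] in
theorem cl_smul (ρ : SU2Action W) (g : SU2) (a : P) (w : W) :
    cl ρ (g • a, w) = cl ρ (a, ρ.hom g⁻¹ w) := by
  rw [cl_eq]
  exact ⟨g⁻¹, inv_smul_smul g a, rfl⟩

theorem proj_cl (E : UniversalBundle P B) (ρ : SU2Action W) (x : P × W) :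
    Assoc.proj E ρ (cl ρ x) = E.π x.1 := rfl

omit [ContinuousSMul SU2 P] in
theorem continuous_cl (ρ : SU2Action W) : Continuous (cl ρ : P × W → Assoc P ρ) :=
  continuous_quotient_mk'

omit [ContinuousSMul SU2 P] in
theorem surj_cl (ρ : SU2Action W) : Function.Surjective (cl ρ : P × W → Assoc P ρ) :=
  Quotient.mk_surjective

theorem isOpenMap_cl (ρ : SU2Action W) : IsOpenMap (cl ρ : P × W → Assoc P ρ) := by
  intro V hV
  have hq : Topology.IsQuotientMap (cl ρ : P × W → Assoc P ρ) := isQuotientMap_quotient_mk'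
  rw [← hq.isOpen_preimage]
  have : cl ρ ⁻¹' (cl ρ '' V) = ⋃ g : SU2, (fun x : P × W => (g • x.1, ρ.hom g x.2)) ⁻¹' V := by
    ext x
    simp only [Set.mem_preimage, Set.mem_image, Set.mem_iUnion]
    constructor
    · rintro ⟨y, hy, hyx⟩
      obtain ⟨g, h1, h2⟩ := cl_eq.1 hyx.symm
      refine ⟨g, ?_⟩
      rw [h1, h2]
      exact hy
    · rintro ⟨g, hg⟩
      exact ⟨_, hg, (cl_eq.2 ⟨g, rfl, rfl⟩).symm⟩
  rw [this]
  refine isOpen_iUnion fun g => hV.preimage ?_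
  exact (continuous_fst.const_smul g).prodMk ((ρ.hom g).continuous.comp continuous_snd)

/-- pairs of a point of `P` and a point of the associated bundle over the same point of `B` -/
abbrev Fa (E : UniversalBundle P B) (ρ : SU2Action W) : Type :=
  {z : P × Assoc P ρ // E.π z.1 = Assoc.proj E ρ z.2}

theorem exists_coord (E : UniversalBundle P B) (ρ : SU2Action W) (z : Fa E ρ) :
    ∃ w : W, cl ρ (z.1.1, w) = z.1.2 := by
  obtain ⟨⟨b, w⟩, h⟩ := surj_cl ρ z.1.2
  have h1 : E.π b = E.π z.1.1 := by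
    rw [z.2, ← h, proj_cl]
  obtain ⟨g, hg⟩ := exists_trans E h1
  refine ⟨ρ.hom g w, ?_⟩
  rw [← h]
  exact (cl_eq.2 ⟨g, hg, rfl⟩).symm

theorem cl_inj (E : UniversalBundle P B) {ρ : SU2Action W} {a : P} {w w' : W}
    (h : cl ρ (a, w) = cl ρ (a, w')) : w = w' := by
  obtain ⟨g, h1, h2⟩ := cl_eq.1 h
  have h3 : g = 1 := free (E := E) h1
  subst h3
  rw [map_one] at h2
  exact h2

/-- the coordinate: `[a, T(a, e)] = e` -/
noncomputable def T (E : UniversalBundle P B) (ρ : SU2Action W) (z : Fa E ρ) : W :=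
  (exists_coord E ρ z).choose

theorem cl_T (E : UniversalBundle P B) (ρ : SU2Action W) (z : Fa E ρ) :
    cl ρ (z.1.1, T E ρ z) = z.1.2 := (exists_coord E ρ z).choose_spec

theorem T_eq (E : UniversalBundle P B) (ρ : SU2Action W) (z : Fa E ρ) {w : W}
    (h : cl ρ (z.1.1, w) = z.1.2) : T E ρ z = w :=
  cl_inj E ((cl_T E ρ z).trans h.symm)

theorem continuous_T (E : UniversalBundle P B) (ρ : SU2Action W) : Continuous (T E ρ) := by
  set f : P × (P × W) → P × Assoc P ρ := Prod.map id (cl ρ) with hf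
  have hfo : IsOpenMap f := IsOpenMap.id.prodMap (isOpenMap_cl ρ)
  have hfc : Continuous f := continuous_id.prodMap (continuous_cl ρ)
  have hfs : Function.Surjective f := Function.surjective_id.prodMap (surj_cl ρ)
  set S : Set (P × Assoc P ρ) := {z | E.π z.1 = Assoc.proj E ρ z.2} with hS
  have hq : Topology.IsQuotientMap (S.restrictPreimage f) :=
    (hfo.restrictPreimage S).isQuotientMap (hfc.restrictPreimage)
      (Set.restrictPreimage_surjective S hfs)
  have : Continuous ((T E ρ) ∘ (S.restrictPreimage f)) := by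
    have hmem : ∀ z : f ⁻¹' S, E.π z.1.2.1 = E.π z.1.1 := fun z => by
      have h1 : E.π z.1.1 = Assoc.proj E ρ (cl ρ z.1.2) := z.2
      rw [h1, proj_cl]
    have e : (T E ρ) ∘ (S.restrictPreimage f) = fun z : f ⁻¹' S =>
        ρ.hom (dlt E ⟨(z.1.2.1, z.1.1), hmem z⟩) z.1.2.2 := by
      funext z
      apply T_eq
      change cl ρ (z.1.1, _) = cl ρ z.1.2
      symm
      rw [cl_eq]
      exact ⟨_, dlt_smul E ⟨(z.1.2.1, z.1.1), hmem z⟩, rfl⟩
    rw [e]
    have hc : Continuous fun z : f ⁻¹' S => (⟨(z.1.2.1, z.1.1), hmem z⟩ : Fp E) := by fun_prop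
    exact ρ.continuous_action.comp
      (((continuous_dlt E).comp hc).prodMk (by fun_prop))
  exact hq.continuous_iff.2 this

theorem T_smul (E : UniversalBundle P B) (ρ : SU2Action W) (g : SU2) (a : P) (e : Assoc P ρ)
    (h : E.π a = Assoc.proj E ρ e) :
    T E ρ ⟨(g • a, e), by rw [E.π_smul]; exact h⟩ = ρ.hom g (T E ρ ⟨(a, e), h⟩) := by
  apply T_eq
  rw [cl_smul]
  have h1 : ρ.hom g⁻¹ (ρ.hom g (T E ρ ⟨(a, e), h⟩)) = T E ρ ⟨(a, e), h⟩ := by
    rw [map_inv]
    exact (ρ.hom g).symm_apply_apply _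
  rw [h1]
  exact cl_T E ρ ⟨(a, e), h⟩

/-! ### isomorphisms -/

section Iso

variable (E : UniversalBundle P B) (ρ ρ' : SU2Action W) (ψ : C(B, B))

/-- pairs `(a, a')` with `ψ(π a) = π a'` -/
abbrev Zt (E : UniversalBundle P B) (ψ : C(B, B)) : Type := {z : P × P // ψ (E.π z.1) = E.π z.2}

variable (F : Pullback E ρ ψ ≃ₜ Assoc P ρ') (hF : ∀ x, Assoc.proj E ρ' (F x) = x.1.1)

/-- the point `(π a, [a', w])` of the pull-back -/
def pbp (z : Zt E ψ) (w : W) : Pullback E ρ ψ :=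
  ⟨(E.π z.1.1, cl ρ (z.1.2, w)), z.2⟩

theorem continuous_pbp : Continuous fun x : Zt E ψ × W => pbp E ρ ψ x.1 x.2 := by
  refine Continuous.subtype_mk ?_ _
  refine Continuous.prodMk (by fun_prop) ?_
  exact (continuous_cl ρ).comp (by fun_prop)

/-- the homeomorphism `β(a, a') : W → W` -/
noncomputable def bet (x : Zt E ψ × W) : W :=
  T E ρ' ⟨(x.1.1.1, F (pbp E ρ ψ x.1 x.2)), (hF (pbp E ρ ψ x.1 x.2)).symm⟩

theorem continuous_bet : Continuous (bet E ρ ρ' ψ F hF) := by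
  apply (continuous_T E ρ').comp
  refine Continuous.subtype_mk ?_ _
  refine Continuous.prodMk (by fun_prop) ?_
  exact F.continuous.comp (continuous_pbp E ρ ψ)

theorem cl_bet (z : Zt E ψ) (w : W) :
    cl ρ' (z.1.1, bet E ρ ρ' ψ F hF (z, w)) = F (pbp E ρ ψ z w) :=
  cl_T E ρ' ⟨(z.1.1, F (pbp E ρ ψ z w)), (hF (pbp E ρ ψ z w)).symm⟩

theorem bet_inj (z : Zt E ψ) : Function.Injective fun w => bet E ρ ρ' ψ F hF (z, w) := by
  intro w w' h
  have h1 : F (pbp E ρ ψ z w) = F (pbp E ρ ψ z w') := by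
    rw [← cl_bet E ρ ρ' ψ F hF, ← cl_bet E ρ ρ' ψ F hF]
    simp only at h
    rw [h]
  have h2 := F.injective h1
  have h3 : cl ρ (z.1.2, w) = cl ρ (z.1.2, w') := congrArg (fun x => x.1.2) h2
  exact cl_inj E h3

/-- the action of `SU(2) × SU(2)` on the pairs -/
def actZ (g g' : SU2) (z : Zt E ψ) : Zt E ψ :=
  ⟨(g • z.1.1, g' • z.1.2), by
    change ψ (E.π (g • z.1.1)) = E.π (g' • z.1.2)
    rw [E.π_smul, E.π_smul]
    exact z.2⟩

theorem bet_act (g g' : SU2) (z : Zt E ψ) (w : W) :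
    bet E ρ ρ' ψ F hF (actZ E ψ g g' z, w) =
      ρ'.hom g (bet E ρ ρ' ψ F hF (z, ρ.hom g'⁻¹ w)) := by
  have h1 : pbp E ρ ψ (actZ E ψ g g' z) w = pbp E ρ ψ z (ρ.hom g'⁻¹ w) := by
    apply Subtype.ext
    apply Prod.ext
    · exact E.π_smul g z.1.1
    · exact cl_smul ρ g' z.1.2 w
  have h2 := T_smul E ρ' g z.1.1 (F (pbp E ρ ψ z (ρ.hom g'⁻¹ w)))
    (hF (pbp E ρ ψ z (ρ.hom g'⁻¹ w))).symm
  change _ = ρ'.hom g (T E ρ' _)
  rw [← h2]
  unfold bet
  congr 1
  apply Subtype.ext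
  apply Prod.ext
  · rfl
  · exact congrArg F h1

/-- the inverse homeomorphism `γ(a, a')` -/
noncomputable def gam (x : Zt E ψ × W) : W :=
  T E ρ ⟨(x.1.1.2, (F.symm (cl ρ' (x.1.1.1, x.2))).1.2), by
    have h1 := (F.symm (cl ρ' (x.1.1.1, x.2))).2
    have h2 := hF (F.symm (cl ρ' (x.1.1.1, x.2)))
    rw [F.apply_symm_apply, proj_cl] at h2
    rw [← h1, ← h2]
    exact x.1.2.symm⟩

theorem continuous_gam : Continuous (gam E ρ ρ' ψ F hF) := by
  apply (continuous_T E ρ).comp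
  refine Continuous.subtype_mk ?_ _
  refine Continuous.prodMk (by fun_prop) ?_
  have h1 : Continuous fun x : Zt E ψ × W => F.symm (cl ρ' (x.1.1.1, x.2)) :=
    F.symm.continuous.comp ((continuous_cl ρ').comp (by fun_prop))
  exact continuous_snd.comp (continuous_subtype_val.comp h1)

theorem cl_gam (z : Zt E ψ) (w : W) :
    cl ρ (z.1.2, gam E ρ ρ' ψ F hF (z, w)) = (F.symm (cl ρ' (z.1.1, w))).1.2 :=
  cl_T E ρ ⟨(z.1.2, (F.symm (cl ρ' (z.1.1, w))).1.2), _⟩

theorem bet_gam (z : Zt E ψ) (w : W) :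
    bet E ρ ρ' ψ F hF (z, gam E ρ ρ' ψ F hF (z, w)) = w := by
  apply T_eq
  have h1 : pbp E ρ ψ z (gam E ρ ρ' ψ F hF (z, w)) = F.symm (cl ρ' (z.1.1, w)) := by
    apply Subtype.ext
    apply Prod.ext
    · have h2 := hF (F.symm (cl ρ' (z.1.1, w)))
      rw [F.apply_symm_apply, proj_cl] at h2
      exact h2
    · exact cl_gam E ρ ρ' ψ F hF z w
  change cl ρ' (z.1.1, w) = F (pbp E ρ ψ z (gam E ρ ρ' ψ F hF (z, w)))
  rw [h1, F.apply_symm_apply]

theorem gam_inj (z : Zt E ψ) : Function.Injective fun w => gam E ρ ρ' ψ F hF (z, w) := by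
  intro w w' h
  have h1 := bet_gam E ρ ρ' ψ F hF z w
  have h2 := bet_gam E ρ ρ' ψ F hF z w'
  simp only at h
  rw [h, h2] at h1
  exact h1.symm

theorem gam_act (g g' : SU2) (z : Zt E ψ) (w : W) :
    gam E ρ ρ' ψ F hF (actZ E ψ g g' z, w) =
      ρ.hom g' (gam E ρ ρ' ψ F hF (z, ρ'.hom g⁻¹ w)) := by
  apply bet_inj E ρ ρ' ψ F hF (actZ E ψ g g' z)
  simp only
  rw [bet_gam, bet_act]
  have h1 : ρ.hom g'⁻¹ (ρ.hom g' (gam E ρ ρ' ψ F hF (z, ρ'.hom g⁻¹ w))) =
      gam E ρ ρ' ψ F hF (z, ρ'.hom g⁻¹ w) := by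
    rw [map_inv]
    exact (ρ.hom g').symm_apply_apply _
  rw [h1, bet_gam]
  rw [map_inv]
  exact ((ρ'.hom g).apply_symm_apply w).symm

end Iso

end Pool.Agent.N504.KB
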