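import Mathlib

/-! Definitions for MP_7ef860_gt: universal principal `SU(2)`-bundles, self-maps of `BSU(2)` with
their loop degree, bundles over `BSU(2)` associated with actions of `SU(2)`, pull-backs. -/

set_option autoImplicit false

open scoped Manifold ContDiff
open CategoryTheory AlgebraicTopology

namespace Pool.Agent.N504.Kinetic

noncomputable section

/-- The group `SU(2)`, with the topology of a space of matrices. -/
abbrev SU2 : Type := Matrix.specialUnitaryGroup (Fin 2) ℂ

/-- A universal principal `SU(2)`-bundle, that is, a model `π : P → B` of `ESU(2) → BSU(2)`: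
`P` is a contractible space with a continuous left action of `SU(2)`, and `B` has an open cover by
sets `U` over which there is an equivariant homeomorphism `φ : U × SU(2) → π⁻¹(U)` over `U`. -/
structure UniversalBundle (P B : Type) [TopologicalSpace P] [TopologicalSpace B]
    [MulAction SU2 P] [ContinuousSMul SU2 P] where
  /-- the projection -/
  π : C(P, B)
  contractible : ContractibleSpace P
  locally_trivial : ∀ b : B, ∃ U : Set B, IsOpen U ∧ b ∈ U ∧
    ∃ φ : (U × SU2) ≃ₜ (π ⁻¹' U), (∀ x : U × SU2, π (φ x) = x.1) ∧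
      ∀ (u : U) (g h : SU2), (φ (u, g * h) : P) = g • (φ (u, h) : P)

/-- A continuous action of `SU(2)` on the space `W` by homeomorphisms. -/
structure SU2Action (W : Type) [TopologicalSpace W] where
  /-- the homomorphism to the homeomorphism group -/
  hom : SU2 →* (W ≃ₜ W)
  continuous_action : Continuous fun x : SU2 × W => hom x.1 x.2

/-- The action is not trivial: some element of `SU(2)` moves some point. -/
def SU2Action.Nontrivial {W : Type} [TopologicalSpace W] (ρ : SU2Action W) : Prop :=
  ∃ (g : SU2) (w : W), ρ.hom g w ≠ w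

/-- The integral third homology group of `SU(2)` (Mathlib's singular homology). -/
abbrev H3SU2 : ModuleCat.{0} ℤ :=
  ((singularHomologyFunctor (ModuleCat.{0} ℤ) 3).obj (ModuleCat.of ℤ ℤ)).obj (TopCat.of SU2)

/-- The map `θ : SU(2) → SU(2)` has degree `d`: it induces multiplication by `d` on
`H₃(SU(2); ℤ)`. -/
def HasDegree (θ : C(SU2, SU2)) (d : ℤ) : Prop :=
  ((singularHomologyFunctor (ModuleCat.{0} ℤ) 3).obj (ModuleCat.of ℤ ℤ)).map (TopCat.ofHom θ) =
    d • 𝟙 H3SU2

section

variable {P B : Type} [TopologicalSpace P] [TopologicalSpace B]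
  [MulAction SU2 P] [ContinuousSMul SU2 P]

/-- The self-map `ψ` of `B = BSU(2)` has loop degree `d`: it is covered by a map `Ψ : P → P` of the
total space of the universal bundle, and the map `θ : SU(2) → SU(2)` which `Ψ` induces between the
fibres through a point `a` and through `Ψ(a)`, `Ψ(g a) = θ(g) Ψ(a)`, has degree `d`. (As `P` is
contractible, the fibre `SU(2)` is identified with `ΩB`, and `θ` with the loop map of `ψ`.) -/
def HasLoopDegree (E : UniversalBundle P B) (ψ : C(B, B)) (d : ℤ) : Prop :=
  ∃ Ψ : C(P, P), (∀ a, E.π (Ψ a) = ψ (E.π a)) ∧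
    ∃ (a : P) (θ : C(SU2, SU2)), (∀ g : SU2, Ψ (g • a) = θ g • Ψ a) ∧ HasDegree θ d

variable {W : Type} [TopologicalSpace W]

/-- The equivalence relation on `P × W` whose classes are the orbits of the diagonal action
`g (a, w) = (g a, ρ(g) w)`. -/
def orbitSetoid (P : Type) [MulAction SU2 P] (ρ : SU2Action W) : Setoid (P × W) where
  r x y := ∃ g : SU2, g • x.1 = y.1 ∧ ρ.hom g x.2 = y.2
  iseqv :=
    { refl := fun x => ⟨1, one_smul _ _, by rw [map_one]; rfl⟩
      symm := by
        rintro x y ⟨g, h1, h2⟩
        refine ⟨g⁻¹, by rw [← h1, inv_smul_smul], ?_⟩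
        rw [← h2, map_inv]
        exact (ρ.hom g).symm_apply_apply _
      trans := by
        rintro x y z ⟨g, h1, h2⟩ ⟨g', h3, h4⟩
        refine ⟨g' * g, by rw [mul_smul, h1, h3], ?_⟩
        rw [← h4, ← h2, map_mul]
        rfl }

/-- The associated bundle `P ×_{SU(2)} W`, the total space of the `W`-bundle over `BSU(2)` induced
by the action `ρ`, with the quotient topology. -/
def Assoc (P : Type) [TopologicalSpace P] [MulAction SU2 P] (ρ : SU2Action W) : Type :=
  Quotient (orbitSetoid P ρ)

instance (P : Type) [TopologicalSpace P] [MulAction SU2 P] (ρ : SU2Action W) :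
    TopologicalSpace (Assoc P ρ) :=
  inferInstanceAs (TopologicalSpace (Quotient (orbitSetoid P ρ)))

/-- The projection of the universal bundle is constant on orbits. -/
theorem UniversalBundle.π_smul (E : UniversalBundle P B) (g : SU2) (a : P) :
    E.π (g • a) = E.π a := by
  obtain ⟨U, _, hb, φ, h1, h2⟩ := E.locally_trivial (E.π a)
  obtain ⟨x, hx⟩ := φ.surjective ⟨a, hb⟩
  have h3 := h2 x.1 g x.2
  have h4 : (φ (x.1, x.2) : P) = a := congrArg Subtype.val hx
  rw [h4] at h3
  rw [← h3, h1, ← h4, h1]

/-- The bundle projection `P ×_{SU(2)} W → B`, `[a, w] ↦ π(a)`. -/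
def Assoc.proj (E : UniversalBundle P B) (ρ : SU2Action W) : Assoc P ρ → B :=
  Quotient.lift (fun x : P × W => E.π x.1) (by
    rintro x y ⟨g, h1, _⟩
    rw [← h1, E.π_smul])

/-- The total space of the pull-back along `ψ : B → B` of the bundle `P ×_{SU(2)} W → B`, the
subspace of the pairs `(b, e)` of `B × (P ×_{SU(2)} W)` such that `e` lies over `ψ(b)`. -/
def Pullback (E : UniversalBundle P B) (ρ : SU2Action W) (ψ : C(B, B)) : Type :=
  {x : B × Assoc P ρ // ψ x.1 = Assoc.proj E ρ x.2}

instance (E : UniversalBundle P B) (ρ : SU2Action W) (ψ : C(B, B)) :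
    TopologicalSpace (Pullback E ρ ψ) :=
  inferInstanceAs (TopologicalSpace {x : B × Assoc P ρ // ψ x.1 = Assoc.proj E ρ x.2})

end

end

end Pool.Agent.N504.Kinetic
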