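import Pool.Agent.N504.KB.Res

/-! A Künneth formula in the first nontrivial degree, and the product formula for maps into a
topological group. -/

set_option autoImplicit false

namespace Pool.Agent.N504.KB

open Finsupp
open Pool.Agent.H904R2 Pool.Agent.H904R2.Sph
open Pool.Agent.Helper922.HB.Sc (Sing sface sbd sbd_sbd slice vert Dl)

theorem isBdy_congr {X : Type} [TopologicalSpace X] {m : ℕ} {a b : Ch X m}
    (h : IsBdy m (a - b)) (hb : IsBdy m b) : IsBdy m a := by
  have := bdy_add h hb
  rwa [sub_add_cancel] at this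

/-- linear maps with values boundaries on simplices -/
theorem lin_bdy {X Y : Type} [TopologicalSpace X] [TopologicalSpace Y] {m n : ℕ}
    (L : Ch X m →ₗ[ℤ] Ch Y n) (h : ∀ σ, IsBdy n (L (single σ 1))) (z : Ch X m) :
    IsBdy n (L z) := by
  rw [isBdy_iff]
  have := Pool.Agent.Helper922.HB.Sc.supported_map (Set.univ : Set (Sing X m)) L
    (LinearMap.range (sbd Y n)) (fun σ _ => isBdy_iff.1 (h σ)) z (by simp)
  exact this

theorem lin_cyc {X Y : Type} [TopologicalSpace X] [TopologicalSpace Y] {m n : ℕ}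
    (L : Ch X m →ₗ[ℤ] Ch Y n) (h : ∀ σ, IsCyc n (L (single σ 1))) (z : Ch X m) :
    IsCyc n (L z) := by
  rw [isCyc_iff]
  have := Pool.Agent.Helper922.HB.Sc.supported_map (Set.univ : Set (Sing X m)) L
    (cyc Y n) (fun σ _ => isCyc_iff.1 (h σ)) z (by simp)
  exact this

/-- moving a point along a path does not change the class of a push forward -/
theorem move_point {X V : Type} [TopologicalSpace X] [TopologicalSpace V] [PathConnectedSpace X]
    (x0 x1 : X) (m : ℕ) (r : Ch V m) (hr : IsCyc m r) :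
    IsBdy m (psh ((ContinuousMap.const V x1).prodMk (ContinuousMap.id V)) m r -
      psh ((ContinuousMap.const V x0).prodMk (ContinuousMap.id V)) m r) := by
  obtain ⟨γ⟩ := PathConnectedSpace.joined x0 x1
  set H : C(V × unitInterval, X × V) := ⟨fun p => (γ p.2, p.1), by fun_prop⟩ with hH
  have h := homotopy_bdy H hr
  have e1 : slice H 1 = (ContinuousMap.const V x1).prodMk (ContinuousMap.id V) := by
    ext v
    · change (γ 1) = x1
      exact γ.target
    · rfl
  have e0 : slice H 0 = (ContinuousMap.const V x0).prodMk (ContinuousMap.id V) := by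
    ext v
    · change (γ 0) = x0
      exact γ.source
    · rfl
  rwa [e1, e0] at h

/-- the Künneth formula in degree `m + 1` if `V` is acyclic below that degree -/
theorem kunneth {X V : Type} [TopologicalSpace X] [TopologicalSpace V] [PathConnectedSpace X]
    (x0 : X) (v0 : V) (m : ℕ) (hV : ∀ j < m + 1, RAcyc V j) (z : Ch (X × V) (m + 1))
    (hz : IsCyc (m + 1) z) :
    IsBdy (m + 1) (z - psh ((ContinuousMap.id X).prodMk (ContinuousMap.const X v0)) (m + 1)
        (psh ContinuousMap.fst (m + 1) z) -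
      psh ((ContinuousMap.const V x0).prodMk (ContinuousMap.id V)) (m + 1)
        (psh ContinuousMap.snd (m + 1) z)) := by
  obtain ⟨h, hs⟩ := Prd.exists_spec v0 (m + 1) hV
  set e : Sing (X × V) (m + 1) → Ch (Dl (m + 1) × V) (m + 1) :=
    fun σ => Prd.ee (m + 1) (ContinuousMap.snd.comp σ) with he
  set R : Sing (X × V) (m + 1) → Ch (Dl (m + 1) × V) (m + 1) := fun σ =>
    e σ - psh (Prd.PP (Dl (m + 1)) v0) (m + 1) (e σ) -
      Prd.ext h (Dl (m + 1)) m (sbd _ m (e σ)) with hR
  have hRc : ∀ σ, IsCyc (m + 1) (R σ) := fun σ =>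
    Prd.defect_cyc v0 h m (hs m (Nat.lt_succ_self m)) (fun p hp => hs p (by omega)) _
  set f : Sing (X × V) (m + 1) → C(Dl (m + 1) × V, X × V) := fun σ =>
    (ContinuousMap.fst.comp σ).prodMap (ContinuousMap.id V) with hf
  have hfR : ∀ σ, psh (f σ) (m + 1) (R σ) = single σ 1 -
      psh (Prd.PP X v0) (m + 1) (single σ 1) - Prd.ext h X m (sbd _ m (single σ 1)) := by
    intro σ
    simp only [hR, he, hf]
    rw [map_sub, map_sub, ← Prd.PP_nat, ← Prd.ext_nat, ← Prd.sbd_psh, Prd.psh_ee]
  -- the fibre classes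
  set Λ : Ch (X × V) (m + 1) →ₗ[ℤ] Ch V (m + 1) :=
    Finsupp.linearCombination ℤ (fun σ => psh ContinuousMap.snd (m + 1) (R σ)) with hΛ
  have hΛs : ∀ σ, Λ (single σ 1) = psh ContinuousMap.snd (m + 1) (R σ) := by
    intro σ
    rw [hΛ, linearCombination_single, one_smul]
  set j0 : C(V, X × V) := (ContinuousMap.const V x0).prodMk (ContinuousMap.id V) with hj0
  have key : ∀ w : Ch (X × V) (m + 1), IsBdy (m + 1) (w - psh (Prd.PP X v0) (m + 1) w -
      Prd.ext h X m (sbd _ m w) - psh j0 (m + 1) (Λ w)) := by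
    intro w
    have h1 := lin_bdy (LinearMap.id - psh (Prd.PP X v0) (m + 1) -
      (Prd.ext h X m).comp (sbd _ m) - (psh j0 (m + 1)).comp Λ) (fun σ => ?_) w
    · exact h1
    simp only [LinearMap.sub_apply, LinearMap.id_apply, LinearMap.comp_apply]
    rw [← hfR σ, hΛs]
    have h2 := bdy_psh (f σ) (Prd.hom_contr (m + 1) (m + 1) (R σ) (hRc σ))
    rw [map_sub, psh_comp] at h2
    have h3 : (f σ).comp ((ContinuousMap.const V (vert (m + 1) 0)).prodMk (ContinuousMap.id V)) =
      (ContinuousMap.const V (σ (vert (m + 1) 0)).1).prodMk (ContinuousMap.id V) := rfl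
    rw [h3] at h2
    have h4 := move_point x0 (σ (vert (m + 1) 0)).1 (m + 1) (psh ContinuousMap.snd (m + 1) (R σ))
      (cyc_psh ContinuousMap.snd (hRc σ))
    have h5 := bdy_add h2 h4
    rwa [sub_add_sub_cancel] at h5
  have h1 := key z
  have hz0 : sbd _ m z = 0 := hz
  rw [hz0, map_zero, sub_zero] at h1
  have hPP : psh (Prd.PP X v0) (m + 1) z =
      psh ((ContinuousMap.id X).prodMk (ContinuousMap.const X v0)) (m + 1)
        (psh ContinuousMap.fst (m + 1) z) := by
    rw [psh_comp]
    rfl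
  rw [hPP] at h1
  -- identify the fibre class
  have h2 := bdy_psh (ContinuousMap.snd : C(X × V, V)) h1
  rw [map_sub, map_sub] at h2
  have e1 : psh (ContinuousMap.snd : C(X × V, V)) (m + 1) (psh j0 (m + 1) (Λ z)) = Λ z := by
    rw [psh_comp]
    exact psh_id _ _
  have h3 : IsBdy (m + 1) (psh (ContinuousMap.snd : C(X × V, V)) (m + 1)
      (psh ((ContinuousMap.id X).prodMk (ContinuousMap.const X v0)) (m + 1)
        (psh ContinuousMap.fst (m + 1) z))) := by
    rw [psh_comp, psh_comp]
    exact const_bdy v0 hz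
  rw [e1] at h2
  have h4 : IsBdy (m + 1) (psh (ContinuousMap.snd : C(X × V, V)) (m + 1) z - Λ z) := by
    have h5 := bdy_add h2 h3
    have e2 : ∀ a b c : Ch V (m + 1), a - b - c + b = a - c := fun a b c => by abel
    rwa [e2] at h5
  have h5 := bdy_psh j0 h4
  rw [map_sub] at h5
  have h6 := bdy_sub h1 h5
  have e3 : ∀ a b c d : Ch (X × V) (m + 1), a - b - c - (d - c) = a - b - d :=
    fun a b c d => by abel
  rwa [e3] at h6

/-- product formula -/
theorem psh_mul {G Q : Type} [TopologicalSpace G] [TopologicalSpace Q] [Group G] [ContinuousMul G]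
    [PathConnectedSpace G] (m : ℕ) (hG : ∀ j < m + 1, RAcyc G j) (f g fg : C(Q, G))
    (hfg : ∀ x, fg x = f x * g x)
    (z : Ch Q (m + 1)) (hz : IsCyc (m + 1) z) :
    IsBdy (m + 1) (psh fg (m + 1) z - psh f (m + 1) z - psh g (m + 1) z) := by
  set μ : C(G × G, G) := ⟨fun p => p.1 * p.2, continuous_mul⟩ with hμ
  have h1 := kunneth (X := G) (V := G) 1 1 m hG (psh (f.prodMk g) (m + 1) z) (cyc_psh _ hz)
  have h2 := bdy_psh μ h1
  rw [map_sub, map_sub] at h2
  have e1 : psh μ (m + 1) (psh (f.prodMk g) (m + 1) z) = psh fg (m + 1) z := by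
    rw [psh_comp]
    congr 2
    ext x
    exact (hfg x).symm
  have e2 : psh μ (m + 1) (psh ((ContinuousMap.id G).prodMk (ContinuousMap.const G 1)) (m + 1)
      (psh ContinuousMap.fst (m + 1) (psh (f.prodMk g) (m + 1) z))) = psh f (m + 1) z := by
    rw [psh_comp, psh_comp, psh_comp]
    congr 2
    ext x
    change f x * 1 = f x
    rw [mul_one]
  have e3 : psh μ (m + 1) (psh ((ContinuousMap.const G 1).prodMk (ContinuousMap.id G)) (m + 1)
      (psh ContinuousMap.snd (m + 1) (psh (f.prodMk g) (m + 1) z))) = psh g (m + 1) z := by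
    rw [psh_comp, psh_comp, psh_comp]
    congr 2
    ext x
    change 1 * g x = g x
    rw [one_mul]
  rwa [e1, e2, e3] at h2

end Pool.Agent.N504.KB
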