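import Pool.Agent.N504.KB.Zt
import Pool.Agent.N504.KB.Br

/-! The main theorem. -/

set_option autoImplicit false

namespace Pool.Agent.N504.KB

open Finsupp
open Pool.Agent.H904R2 Pool.Agent.H904R2.Sph
open Pool.Agent.N504.Kinetic (UniversalBundle SU2Action Assoc Pullback orbitSetoid HasLoopDegree
  HasDegree)

variable {P B : Type} [TopologicalSpace P] [TopologicalSpace B]
  [MulAction SU2 P] [ContinuousSMul SU2 P]

/-- `exp(2πi/q)` -/
noncomputable def rt (q : ℕ) : ℂ := Complex.exp (2 * Real.pi * Complex.I / q)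

theorem rt_norm (q : ℕ) (hq : q ≠ 0) : Complex.normSq (rt q) = 1 := by
  have h := (Complex.isPrimitiveRoot_exp q hq).norm'_eq_one hq
  rw [Complex.normSq_eq_norm_sq]
  change ‖Complex.exp (2 * Real.pi * Complex.I / q)‖ ^ 2 = 1
  rw [h, one_pow]

theorem dg_pow_q (q : ℕ) (hq : q ≠ 0) : (dg (rt q) (rt_norm q hq)) ^ q = 1 := by
  rw [dg_pow]
  apply su2_ext
  · rw [dg_00, one_00]
    exact (Complex.isPrimitiveRoot_exp q hq).pow_eq_one
  · rw [dg_10, one_10]

theorem rt_ne (q m : ℕ) (hq : q.Prime) (hm : ¬ q ∣ m) : rt q ^ m ≠ 1 := by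
  intro h
  exact hm ((Complex.isPrimitiveRoot_exp q hq.ne_zero).dvd_of_pow_eq_one m h)

/-- an action with a noncentral diagonal element acting trivially is trivial -/
theorem triv_of {W : Type} [TopologicalSpace W] (ρ : SU2Action W) (ζ : ℂ)
    (h : Complex.normSq ζ = 1) (hζ : ζ ^ 2 ≠ 1) (hx : ∀ x, ρ.hom (dg ζ h)⁻¹ x = x) (g : SU2) :
    ρ.hom g = 1 := by
  have h1 : (dg ζ h)⁻¹ ∈ ρ.hom.ker := by
    rw [MonoidHom.mem_ker]
    exact Homeomorph.ext hx
  have h2 : dg ζ h ∈ ρ.hom.ker := (Subgroup.inv_mem_iff _).1 h1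
  have h3 := normal_top ρ.hom.ker ζ h hζ h2
  have h4 : g ∈ ρ.hom.ker := by rw [h3]; exact Subgroup.mem_top g
  exact MonoidHom.mem_ker.1 h4

theorem main {W : Type} [TopologicalSpace W] {ι : Type} [Fintype ι] (e : C(W, ι → ℝ))
    (he : Function.Injective e) (E : UniversalBundle P B) (ρ ρ' : SU2Action W)
    (hρ : ρ.Nontrivial) (k : ℕ) (hodd : Odd k) (hk : 1 < k) (ψ : C(B, B))
    (hψ : HasLoopDegree E ψ ((k : ℤ) ^ 2)) (F : Pullback E ρ ψ ≃ₜ Assoc P ρ')
    (hF : ∀ x, Assoc.proj E ρ' (F x) = x.1.1) : False := by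
  obtain ⟨Ψ, hΨ, a1, θ, hθ, hdeg⟩ := hψ
  have hcls : ∀ w : Ch SU2 3, IsCyc 3 w → IsBdy 3 (psh θ 3 w - ((k : ℤ) ^ 2) • w) :=
    fun w hw => deg_elem θ 2 _ hdeg w hw
  -- first step: the action `ρ'` is trivial
  have hρ' : ∀ g, ρ'.hom g = 1 := by
    set p := k.minFac with hp
    have hpp : p.Prime := Nat.minFac_prime hk.ne'
    have hpk : p ∣ k := Nat.minFac_dvd k
    have hp2 : ¬ p ∣ 2 := by
      intro h
      have h1 : p = 2 := (Nat.prime_dvd_prime_iff_eq hpp Nat.prime_two).1 h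
      rw [h1] at hpk
      exact (Nat.not_even_iff_odd.2 hodd) (even_iff_two_dvd.2 hpk)
    set c := dg (rt p) (rt_norm p hpp.ne_zero) with hc
    have hcp : c ^ p = 1 := dg_pow_q p hpp.ne_zero
    have hsys : ∀ M, ∃ φ : ∀ n, Ch (Zt E ψ) n, IsSys p (actC E ψ c 1) M φ := by
      refine fun M => zt_sys E ψ Ψ hΨ p c 1 hcp (one_pow p) (ContinuousMap.const SU2 1)
        (sinv.comp θ) θ (fun x => (mul_one 1).symm) a1 hθ (fun x => (one_mul _).symm) ?_ M
      intro w hw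
      obtain ⟨l, hl⟩ := hpk
      refine ⟨((l : ℤ) * k) • psh sinv 3 w, cyc_smul (cyc_psh sinv hw) _, ?_⟩
      have h1 := bdy_psh sinv (hcls w hw)
      rw [map_sub, map_smul, psh_comp] at h1
      have h2 : ((k : ℤ) ^ 2) • psh sinv 3 w = (p : ℤ) • ((l : ℤ) * k) • psh sinv 3 w := by
        rw [smul_smul]
        congr 1
        rw [sq]
        nth_rewrite 1 [hl]
        push_cast
        ring
      rwa [h2] at h1
    apply triv_of ρ' (rt p) (rt_norm p hpp.ne_zero) (rt_ne p 2 hpp hp2)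
    intro x
    set f : C(Zt E ψ, ι → ℝ) := e.comp ⟨fun z => gam E ρ ρ' ψ F hF (z, x),
      (continuous_gam E ρ ρ' ψ F hF).comp (by fun_prop)⟩ with hf
    obtain ⟨z, hz⟩ := bu_sys hpp (actC E ψ c 1) (actC_iter E ψ c 1 p hcp (one_pow p)) hsys f
    have h1 : gam E ρ ρ' ψ F hF (actZ E ψ c 1 z, x) = gam E ρ ρ' ψ F hF (z, x) := he hz
    rw [gam_act, map_one] at h1
    exact gam_inj E ρ ρ' ψ F hF z h1
  -- second step: the action `ρ` is trivial
  obtain ⟨q, hqk, hqp⟩ := Nat.exists_infinite_primes (k + 1)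
  have hqk' : ¬ q ∣ k := fun h => by
    have := Nat.le_of_dvd (by omega) h
    omega
  have hq2 : ¬ q ∣ 2 := fun h => by
    have := Nat.le_of_dvd (by omega) h
    omega
  set c := dg (rt q) (rt_norm q hqp.ne_zero) with hc
  have hcq : c ^ q = 1 := dg_pow_q q hqp.ne_zero
  have hckq : (c ^ k) ^ q = 1 := by rw [← pow_mul, mul_comm, pow_mul, hcq, one_pow]
  have hk0 : 0 < k := by omega
  set D : C(SU2, SU2) := ⟨fun x => spow k hk0 x * (θ x)⁻¹, by fun_prop⟩ with hD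
  have hsys : ∀ M, ∃ φ : ∀ n, Ch (Zt E ψ) n, IsSys q (actC E ψ c (c ^ k)) M φ := by
    refine fun M => zt_sys E ψ Ψ hΨ q c (c ^ k) hcq hckq (spow k hk0) D θ
      (fun x => spow_equiv k hk0 _ _ x) a1 hθ (fun x => rfl) ?_ M
    intro w hw
    refine ⟨0, ?_, ?_⟩
    · exact map_zero _
    · rw [smul_zero, sub_zero]
      have h1 := psh_mul 2 su2_low (spow k hk0) (sinv.comp θ) D (fun x => rfl) w hw
      have h2 := spow_cls k hk0 w hw
      have h3 := bdy_psh sinv (hcls w hw)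
      rw [map_sub, map_smul, psh_comp] at h3
      have h4 := bdy_smul (sinv_cls w hw) ((k : ℤ) ^ 2)
      have h5 := bdy_add (bdy_add h1 (bdy_add h2 h3)) h4
      have h6 : ∀ a b c d f : Ch SU2 3, a - b - c + (b - d + (c - f)) + (f + d) = a :=
        fun a b c d f => by abel
      rw [smul_add, h6] at h5
      exact h5
  have hζ : (rt q ^ k) ^ 2 ≠ 1 := by
    rw [← pow_mul]
    apply rt_ne q _ hqp
    intro h
    rcases (Nat.Prime.dvd_mul hqp).1 h with h | h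
    · exact hqk' h
    · exact hq2 h
  have hck : c ^ k = dg (rt q ^ k) (by rw [map_pow, rt_norm q hqp.ne_zero, one_pow]) :=
    dg_pow _ _ k
  have hρ1 : ∀ g, ρ.hom g = 1 := by
    apply triv_of ρ (rt q ^ k) (by rw [map_pow, rt_norm q hqp.ne_zero, one_pow]) hζ
    intro x
    set f : C(Zt E ψ, ι → ℝ) := e.comp ⟨fun z => bet E ρ ρ' ψ F hF (z, x),
      (continuous_bet E ρ ρ' ψ F hF).comp (by fun_prop)⟩ with hf
    obtain ⟨z, hz⟩ := bu_sys hqp (actC E ψ c (c ^ k)) (actC_iter E ψ c (c ^ k) q hcq hckq) hsys f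
    have h1 : bet E ρ ρ' ψ F hF (actZ E ψ c (c ^ k) z, x) = bet E ρ ρ' ψ F hF (z, x) := he hz
    rw [bet_act, hρ', hck] at h1
    exact bet_inj E ρ ρ' ψ F hF z h1
  obtain ⟨g, w, hgw⟩ := hρ
  rw [hρ1 g] at hgw
  exact hgw rfl

end Pool.Agent.N504.KB
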