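import Pool.Agent.N504.KB.SU

/-! Classes of the power map and of the inversion of `SU(2)`. -/

set_option autoImplicit false

namespace Pool.Agent.N504.KB

open Finsupp Matrix
open Pool.Agent.H904R2 Pool.Agent.H904R2.Sph Pool.Agent.H904R2.Deg
open Pool.Agent.Helper922.HB.Sc (Sing sface sbd sbd_sbd slice vert Dl)
open scoped ComplexConjugate

theorem pw_one_deg (k : ℕ) (hk : 0 < k)
    (he : ∀ j, 0 < (Function.update (fun _ => 1) (1 : Fin 2) k : Fin 2 → ℕ) j) :
    HasDeg 3 (pw 2 (Function.update (fun _ => 1) (1 : Fin 2) k) he) (k : ℤ) := by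
  set s : Equiv.Perm (Fin 2) := Equiv.swap 0 1 with hs
  obtain ⟨d, hd⟩ := exists_deg 3 (pm 2 s)
  have hinv : (pm 2 s).comp (pm 2 s) = ContinuousMap.id _ := by
    apply pc_ext
    intro v
    funext j
    rw [ContinuousMap.comp_apply, toC_pm, toC_pm, hs, Equiv.swap_apply_self]
    rfl
  have hdd : d * d = 1 := by
    have h1 := deg_comp hd hd
    rw [hinv] at h1
    exact deg_unique h1 (deg_id 3)
  have h0 := single_zero 1 k hk
  have h1 := deg_comp (deg_comp hd h0) hd
  have e : (pm 2 s).comp ((pw 2 (Function.update (fun _ => 1) 0 k) (by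
      intro j
      by_cases hj : j = 0
      · subst hj; simpa using hk
      · rw [Function.update_of_ne hj]; norm_num)).comp (pm 2 s)) =
      pw 2 (Function.update (fun _ => 1) (1 : Fin 2) k) he := by
    apply pc_ext
    intro v
    funext j
    rw [ContinuousMap.comp_apply, toC_pm, ContinuousMap.comp_apply, toC_pw, toC_pm, toC_pw, hs,
      Equiv.swap_apply_self]
    congr 1
    by_cases hj : j = 1
    · subst hj
      rw [Equiv.swap_apply_right, Function.update_self, Function.update_self]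
    · rw [Function.update_of_ne hj, Function.update_of_ne]
      intro h
      apply hj
      have := congrArg (Equiv.swap (0 : Fin 2) 1) h
      rw [Equiv.swap_apply_self, Equiv.swap_apply_left] at this
      exact this
  rw [← e]
  have e2 : d * ((k : ℤ) * d) = k := by
    linear_combination (k : ℤ) * hdd
  rw [e2] at h1
  exact h1

theorem pw_two_deg (k : ℕ) (hk : 0 < k) (he : ∀ j, 0 < (fun _ => k : Fin 2 → ℕ) j) :
    HasDeg 3 (pw 2 (fun _ => k) he) ((k : ℤ) ^ 2) := by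
  have he1 : ∀ j, 0 < (Function.update (fun _ => 1) (1 : Fin 2) k : Fin 2 → ℕ) j := by
    intro j
    by_cases hj : j = 1
    · subst hj; rw [Function.update_self]; exact hk
    · rw [Function.update_of_ne hj]; norm_num
  have h0 := single_zero 1 k hk
  have h1 := pw_one_deg k hk he1
  have h2 := deg_comp h0 h1
  have e : (pw 2 (Function.update (fun _ => 1) (1 : Fin 2) k) he1).comp
      (pw 2 (Function.update (fun _ => 1) 0 k) (by
      intro j
      by_cases hj : j = 0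
      · subst hj; simpa using hk
      · rw [Function.update_of_ne hj]; norm_num)) = pw 2 (fun _ => k) he := by
    apply pc_ext
    intro v
    funext j
    rw [ContinuousMap.comp_apply, toC_pw, toC_pw, toC_pw]
    fin_cases j <;> simp [Function.update]
  rw [sq, ← e]
  exact h2

/-- `(a, b) ↦ (a^k, b^k)`, normalised -/
noncomputable def spow (k : ℕ) (hk : 0 < k) : C(SU2, SU2) :=
  ofP.comp ((pw 2 (fun _ => k) (fun _ => hk)).comp toP)

theorem spow_cls (k : ℕ) (hk : 0 < k) (z : Ch SU2 3) (hz : IsCyc 3 z) :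
    IsBdy 3 (psh (spow k hk) 3 z - ((k : ℤ) ^ 2) • z) := by
  obtain ⟨a, ha⟩ := pc_gen 3 _ (cyc_psh toP hz)
  have h1 : IsBdy 3 (psh (pw 2 (fun _ => k) (fun _ => hk)) 3 (fund 3) - ((k : ℤ) ^ 2) • fund 3) :=
    pw_two_deg k hk (fun _ => hk)
  have h2 := bdy_psh (pw 2 (fun _ => k) (fun _ => hk)) ha
  rw [map_sub, map_smul] at h2
  have h3 := bdy_add h2 (bdy_smul h1 a)
  have h4 := bdy_sub h3 (bdy_smul ha ((k : ℤ) ^ 2))
  have h5 := bdy_psh ofP h4
  have e1 : (psh (pw 2 (fun _ => k) fun _ => hk) 3) (psh toP 3 z) -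
      a • (psh (pw 2 (fun _ => k) fun _ => hk) 3) (fund 3) +
      a • ((psh (pw 2 (fun _ => k) fun _ => hk) 3) (fund 3) - (k : ℤ) ^ 2 • fund 3) -
      (k : ℤ) ^ 2 • (psh toP 3 z - a • fund 3) =
      (psh (pw 2 (fun _ => k) fun _ => hk) 3) (psh toP 3 z) - (k : ℤ) ^ 2 • psh toP 3 z := by
    rw [smul_sub, smul_sub, smul_smul, smul_smul, mul_comm a]
    abel
  rw [e1, map_sub, map_smul, psh_comp, psh_comp, psh_comp, ofP_comp_toP, psh_id] at h5
  exact h5

theorem spow_ne (k : ℕ) (g : SU2) : (fun i => (colv g i) ^ k : Fin 2 → ℂ) ≠ 0 ∨ k = 0 := by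
  by_cases hk : k = 0
  · exact Or.inr hk
  · left
    intro h
    apply colv_ne g
    funext i
    have := congrFun h i
    exact (pow_eq_zero_iff hk).1 this

theorem toC_pw_toP (k : ℕ) (hk : 0 < k) (g : SU2) :
    toC 2 (pw 2 (fun _ => k) (fun _ => hk) (toP g)).1 = fun i => (colv g i) ^ k := by
  funext i
  rw [toC_pw, toC_toP]

theorem spow_00 (k : ℕ) (hk : 0 < k) (g : SU2) : (spow k hk g).1 0 0 =
    (g.1 0 0) ^ k / (nrm (fun i => (colv g i) ^ k) : ℂ) := by
  change toC 2 (pw 2 (fun _ => k) (fun _ => hk) (toP g)).1 0 /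
    (nrm (toC 2 (pw 2 (fun _ => k) (fun _ => hk) (toP g)).1) : ℂ) = _
  rw [toC_pw_toP]
  rfl

theorem spow_10 (k : ℕ) (hk : 0 < k) (g : SU2) : (spow k hk g).1 1 0 =
    (g.1 1 0) ^ k / (nrm (fun i => (colv g i) ^ k) : ℂ) := by
  change toC 2 (pw 2 (fun _ => k) (fun _ => hk) (toP g)).1 1 /
    (nrm (toC 2 (pw 2 (fun _ => k) (fun _ => hk) (toP g)).1) : ℂ) = _
  rw [toC_pw_toP]
  rfl

/-- diagonal elements -/
noncomputable def dg (ζ : ℂ) (h : Complex.normSq ζ = 1) : SU2 :=
  mkS ζ 0 (by rw [h]; simp)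

@[simp] theorem dg_00 (ζ : ℂ) (h) : (dg ζ h).1 0 0 = ζ := rfl
@[simp] theorem dg_10 (ζ : ℂ) (h) : (dg ζ h).1 1 0 = 0 := rfl

theorem dg_mul_00 (ζ : ℂ) (h) (g : SU2) : (dg ζ h * g).1 0 0 = ζ * g.1 0 0 := by
  rw [mul_00, dg_00, dg_10]; simp

theorem dg_mul_10 (ζ : ℂ) (h) (g : SU2) : (dg ζ h * g).1 1 0 = conj ζ * g.1 1 0 := by
  rw [mul_10, dg_00, dg_10]; simp

theorem dg_pow (ζ : ℂ) (h : Complex.normSq ζ = 1) (k : ℕ) :
    (dg ζ h) ^ k = dg (ζ ^ k) (by rw [map_pow, h, one_pow]) := by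
  induction k with
  | zero =>
    apply su2_ext
    · simp [one_00]
    · simp [one_10]
  | succ k ih =>
    rw [pow_succ', ih]
    apply su2_ext
    · rw [dg_mul_00, dg_00, dg_00, pow_succ']
    · rw [dg_mul_10, dg_10, dg_10, mul_zero]

theorem spow_equiv (k : ℕ) (hk : 0 < k) (ζ : ℂ) (h : Complex.normSq ζ = 1) (g : SU2) :
    spow k hk (dg ζ h * g) = (dg ζ h) ^ k * spow k hk g := by
  have hn : nrm (fun i => (colv (dg ζ h * g) i) ^ k) = nrm (fun i => (colv g i) ^ k) := by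
    unfold nrm
    congr 1
    have e0 : colv (dg ζ h * g) 0 = ζ * colv g 0 := dg_mul_00 ζ h g
    have e1 : colv (dg ζ h * g) 1 = conj ζ * colv g 1 := dg_mul_10 ζ h g
    simp only [e0, e1, mul_pow, map_mul, map_pow, Complex.normSq_conj, h, one_pow, one_mul]
  rw [dg_pow]
  apply su2_ext
  · rw [spow_00, hn, dg_mul_00, dg_mul_00, spow_00, mul_pow, mul_div_assoc]
  · rw [spow_10, hn, dg_mul_10, dg_mul_10, spow_10, mul_pow, mul_div_assoc, map_pow]

/-- inversion -/
def sinv : C(SU2, SU2) := ⟨fun g => g⁻¹, continuous_inv⟩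

theorem su2_low : ∀ j < 2 + 1, RAcyc SU2 j := fun j hj => su2_acyc j (by omega)

theorem sinv_cls (z : Ch SU2 3) (hz : IsCyc 3 z) : IsBdy 3 (psh sinv 3 z + z) := by
  have h1 := psh_mul 2 su2_low (ContinuousMap.id SU2) sinv (ContinuousMap.const SU2 1)
    (fun x => (mul_inv_cancel x).symm) z hz
  rw [psh_id] at h1
  have h2 := const_bdy (1 : SU2) hz
  have h3 := bdy_sub h2 h1
  have e : ∀ a b c : Ch SU2 3, a - (a - b - c) = c + b := fun a b c => by abel
  rwa [e] at h3

end Pool.Agent.N504.KB
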