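import Pool.Agent.H904R2.Degree

/-! Systems of singular chains `φ_0, φ_1, …` with `∂ φ_{n+1} = (c - 1) φ_n` for even `n` and
`∂ φ_{n+1} = (1 + c + ⋯ + c^{q-1}) φ_n` for odd `n`. -/

set_option autoImplicit false

namespace Pool.Agent.N504.KB

open Finsupp
open Pool.Agent.H904R2 Pool.Agent.H904R2.Sph
open Pool.Agent.Helper922.HB.Sc (Sing sface sbd sbd_sbd slice)

variable {X Y : Type} [TopologicalSpace X] [TopologicalSpace Y]

/-- `c - 1` for even `i`, the norm `1 + c + ⋯ + c^(q-1)` for odd `i` -/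
noncomputable def op (q : ℕ) (c : C(X, X)) (i n : ℕ) : Module.End ℤ (Ch X n) :=
  if Even i then (psh c n : Module.End ℤ (Ch X n)) - 1
  else ∑ j ∈ Finset.range q, (psh c n : Module.End ℤ (Ch X n)) ^ j

theorem sbd_pow (c : C(X, X)) (j n : ℕ) (z : Ch X (n + 1)) :
    sbd X n (((psh c (n + 1) : Module.End ℤ (Ch X (n + 1))) ^ j) z) =
      ((psh c n : Module.End ℤ (Ch X n)) ^ j) (sbd X n z) := by
  induction j with
  | zero => rfl
  | succ j ih =>
    rw [pow_succ', pow_succ', Module.End.mul_apply, Module.End.mul_apply, sbd_psh, ih]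

theorem sbd_op (q : ℕ) (c : C(X, X)) (i n : ℕ) (z : Ch X (n + 1)) :
    sbd X n (op q c i (n + 1) z) = op q c i n (sbd X n z) := by
  unfold op
  split_ifs
  · rw [LinearMap.sub_apply, LinearMap.sub_apply, map_sub, sbd_psh]
    rfl
  · rw [LinearMap.sum_apply, LinearMap.sum_apply, map_sum]
    exact Finset.sum_congr rfl fun j _ => sbd_pow c j n z

theorem psh_pow (c : C(X, X)) (j n : ℕ) (z : Ch X n) (g : C(X, X)) (hg : ∀ x, g x = c^[j] x) :
    ((psh c n : Module.End ℤ (Ch X n)) ^ j) z = psh g n z := by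
  induction j generalizing g with
  | zero =>
    have : g = ContinuousMap.id X := ContinuousMap.ext hg
    rw [this, psh_id]
    rfl
  | succ j ih =>
    have hcont : Continuous (c^[j]) := c.continuous.iterate j
    rw [pow_succ', Module.End.mul_apply, ih ⟨c^[j], hcont⟩ (fun _ => rfl), psh_comp]
    congr 2
    ext x
    rw [hg x, Function.iterate_succ_apply']
    rfl

theorem psh_pow_q (q : ℕ) (c : C(X, X)) (hc : ∀ x, c^[q] x = x) (n : ℕ) :
    (psh c n : Module.End ℤ (Ch X n)) ^ q = 1 := by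
  refine LinearMap.ext fun z => ?_
  have := psh_pow c q n z (ContinuousMap.id X) (fun x => (hc x).symm)
  rw [this, psh_id]
  rfl

theorem op_op (q : ℕ) (c : C(X, X)) (hc : ∀ x, c^[q] x = x) (i n : ℕ) :
    op q c (i + 1) n * op q c i n = 0 := by
  have h := psh_pow_q q c hc n
  unfold op
  by_cases hi : Even i
  · have hi' : ¬ Even (i + 1) := by rw [Nat.even_add_one]; exact not_not.2 hi
    rw [if_neg hi', if_pos hi, geom_sum_mul, h, sub_self]
  · have hi' : Even (i + 1) := by rw [Nat.even_add_one]; exact hi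
    rw [if_pos hi', if_neg hi, mul_geom_sum, h, sub_self]

theorem op_add_two (q : ℕ) (c : C(X, X)) (i n : ℕ) : op q c (i + 2) n = op q c i n := by
  unfold op
  have : Even (i + 2) ↔ Even i := by rw [Nat.even_add]; simp
  simp only [this]

theorem op_psh (q : ℕ) (c : C(X, X)) (d : C(Y, Y)) (f : C(X, Y)) (h : ∀ x, f (c x) = d (f x))
    (i n : ℕ) (z : Ch X n) : psh f n (op q c i n z) = op q d i n (psh f n z) := by
  have h1 : ∀ w, psh f n (psh c n w) = psh d n (psh f n w) := by
    intro w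
    rw [psh_comp, psh_comp]
    congr 2
    exact ContinuousMap.ext h
  have h2 : ∀ j w, psh f n (((psh c n : Module.End ℤ (Ch X n)) ^ j) w) =
      ((psh d n : Module.End ℤ (Ch Y n)) ^ j) (psh f n w) := by
    intro j
    induction j with
    | zero => intro w; rfl
    | succ j ih =>
      intro w
      rw [pow_succ', pow_succ', Module.End.mul_apply, Module.End.mul_apply, h1, ih]
  unfold op
  split_ifs
  · rw [LinearMap.sub_apply, LinearMap.sub_apply, map_sub, h1]
    rfl
  · rw [LinearMap.sum_apply, LinearMap.sum_apply, map_sum]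
    exact Finset.sum_congr rfl fun j _ => h2 j z

/-- a system of chains up to degree `M` -/
def IsSys (q : ℕ) (c : C(X, X)) (M : ℕ) (φ : ∀ n, Ch X n) : Prop :=
  aug X 0 (φ 0) = 1 ∧ ∀ n < M, sbd X n (φ (n + 1)) = op q c n n (φ n)

theorem IsSys.push {q : ℕ} {c : C(X, X)} {d : C(Y, Y)} {M : ℕ} {φ : ∀ n, Ch X n}
    (h : IsSys q c M φ) (f : C(X, Y)) (hf : ∀ x, f (c x) = d (f x)) :
    IsSys q d M (fun n => psh f n (φ n)) := by
  refine ⟨?_, fun n hn => ?_⟩
  · change aug Y 0 (psh f 0 (φ 0)) = 1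
    rw [aug_psh, h.1]
  · change sbd Y n (psh f (n + 1) (φ (n + 1))) = _
    rw [sbd_psh, h.2 n hn, op_psh q c d f hf]

theorem IsSys.mono {q : ℕ} {c : C(X, X)} {M M' : ℕ} {φ : ∀ n, Ch X n}
    (h : IsSys q c M φ) (hM : M' ≤ M) : IsSys q c M' φ :=
  ⟨h.1, fun n hn => h.2 n (lt_of_lt_of_le hn hM)⟩

theorem IsSys.cyc {q : ℕ} {c : C(X, X)} (hc : ∀ x, c^[q] x = x) {M : ℕ} {φ : ∀ n, Ch X n}
    (h : IsSys q c M φ) : IsCyc M (op q c M M (φ M)) := by
  cases M with
  | zero =>
    rw [isCyc_iff]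
    change aug X 0 (op q c 0 0 (φ 0)) = 0
    unfold op
    rw [if_pos (by decide), LinearMap.sub_apply, map_sub, aug_psh]
    exact sub_self _
  | succ M =>
    change sbd X M (op q c (M + 1) (M + 1) (φ (M + 1))) = 0
    rw [sbd_op, h.2 M (Nat.lt_succ_self M), ← Module.End.mul_apply, op_op q c hc]
    rfl

theorem IsSys.step {q : ℕ} {c : C(X, X)} {M : ℕ} {φ : ∀ n, Ch X n}
    (h : IsSys q c M φ) (hb : IsBdy M (op q c M M (φ M))) :
    ∃ φ' : ∀ n, Ch X n, IsSys q c (M + 1) φ' ∧ ∀ n ≤ M, φ' n = φ n := by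
  obtain ⟨y, hy⟩ := hb
  refine ⟨Function.update φ (M + 1) y, ⟨?_, fun n hn => ?_⟩, fun n hn => ?_⟩
  · rw [Function.update_of_ne (by omega)]
    exact h.1
  · rcases Nat.lt_succ_iff_lt_or_eq.1 hn with hn | rfl
    · rw [Function.update_of_ne (by omega), Function.update_of_ne (by omega)]
      exact h.2 n hn
    · rw [Function.update_self, Function.update_of_ne (by omega)]
      exact hy
  · rw [Function.update_of_ne (by omega)]

/-- extension from degree `M0` upwards -/
theorem IsSys.extend {q : ℕ} {c : C(X, X)} (hc : ∀ x, c^[q] x = x) {M0 : ℕ} {φ : ∀ n, Ch X n}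
    (h : IsSys q c M0 φ) (hX : ∀ n, M0 ≤ n → RAcyc X n) (M : ℕ) :
    ∃ φ' : ∀ n, Ch X n, IsSys q c (M0 + M) φ' := by
  induction M with
  | zero => exact ⟨φ, h⟩
  | succ M ih =>
    obtain ⟨ψ, hψ⟩ := ih
    obtain ⟨ψ', h1, _⟩ := hψ.step (hX (M0 + M) (by omega) _ (hψ.cyc hc))
    exact ⟨ψ', h1⟩

/-- a system up to degree `M` in a space acyclic below `M` -/
theorem exists_sys {q : ℕ} {c : C(X, X)} (hc : ∀ x, c^[q] x = x) (x0 : X) (M : ℕ)
    (hX : ∀ n < M, RAcyc X n) : ∃ φ : ∀ n, Ch X n, IsSys q c M φ := by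
  induction M with
  | zero =>
    refine ⟨fun n => match n with
      | 0 => single (cs x0 0) 1
      | (n + 1) => 0, ?_, fun n hn => absurd hn (Nat.not_lt_zero n)⟩
    exact aug_single _ _ _
  | succ M ih =>
    obtain ⟨ψ, hψ⟩ := ih fun n hn => hX n (by omega)
    obtain ⟨ψ', h1, _⟩ := hψ.step (hX M (Nat.lt_succ_self M) _ (hψ.cyc hc))
    exact ⟨ψ', h1⟩

/-- powers of a map that acts trivially on homology -/
theorem pow_triv {c : C(X, X)} {m : ℕ}
    (ht : ∀ z : Ch X m, IsCyc m z → IsBdy m (psh c m z - z)) (j : ℕ) (z : Ch X m)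
    (hz : IsCyc m z) : IsBdy m (((psh c m : Module.End ℤ (Ch X m)) ^ j) z - z) := by
  have hcyc : ∀ j, IsCyc m (((psh c m : Module.End ℤ (Ch X m)) ^ j) z) := by
    intro j
    induction j with
    | zero => exact hz
    | succ j ih => rw [pow_succ', Module.End.mul_apply]; exact cyc_psh c ih
  induction j with
  | zero =>
    rw [pow_zero, Module.End.one_apply, sub_self]
    exact ⟨0, map_zero _⟩
  | succ j ih =>
    rw [pow_succ', Module.End.mul_apply]
    have h1 := bdy_add (ht _ (hcyc j)) ih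
    rwa [sub_add_sub_cancel] at h1

/-- the norm is multiplication by `q` on homology classes if the action is trivial there -/
theorem norm_triv {q : ℕ} {c : C(X, X)} {m i : ℕ} (hi : ¬ Even i)
    (ht : ∀ z : Ch X m, IsCyc m z → IsBdy m (psh c m z - z)) (z : Ch X m)
    (hz : IsCyc m z) : IsBdy m (op q c i m z - (q : ℤ) • z) := by
  have h1 : op q c i m z - (q : ℤ) • z =
      ∑ j ∈ Finset.range q, (((psh c m : Module.End ℤ (Ch X m)) ^ j) z - z) := by
    unfold op
    rw [if_neg hi, LinearMap.sum_apply, Finset.sum_sub_distrib, Finset.sum_const,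
      Finset.card_range, natCast_zsmul]
  rw [h1, isBdy_iff]
  apply Submodule.sum_mem
  intro j _
  rw [← isBdy_iff]
  exact pow_triv ht j z hz

/-- The main existence statement: a system up to degree 3 whose obstruction class is divisible
by `q` extends to all degrees (in a space with the homology of the 3-sphere). -/
theorem sys_all {q : ℕ} {c : C(X, X)} (hc : ∀ x, c^[q] x = x)
    (ht : ∀ z : Ch X 3, IsCyc 3 z → IsBdy 3 (psh c 3 z - z))
    (hX : ∀ n, 4 ≤ n → RAcyc X n) (φ : ∀ n, Ch X n) (h : IsSys q c 3 φ) (y : Ch X 3)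
    (hy : IsCyc 3 y) (hdiv : IsBdy 3 (op q c 3 3 (φ 3) - (q : ℤ) • y)) (M : ℕ) :
    ∃ φ' : ∀ n, Ch X n, IsSys q c M φ' := by
  have h2 : IsSys q c 3 (Function.update φ 3 (φ 3 - y)) := by
    refine ⟨?_, fun n hn => ?_⟩
    · rw [Function.update_of_ne (by omega)]
      exact h.1
    · by_cases h3 : n = 2
      · subst h3
        change sbd X 2 (Function.update φ 3 (φ 3 - y) 3) = _
        rw [Function.update_self, Function.update_of_ne (by omega), map_sub]
        have h4 : sbd X 2 y = 0 := hy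
        rw [h4, sub_zero]
        exact h.2 2 hn
      · rw [Function.update_of_ne (by omega), Function.update_of_ne (by omega)]
        exact h.2 n hn
  have h3 : IsBdy 3 (op q c 3 3 (Function.update φ 3 (φ 3 - y) 3)) := by
    rw [Function.update_self, map_sub]
    have h4 := norm_triv (q := q) (i := 3) (by decide) ht y hy
    have h5 := bdy_sub hdiv h4
    have h6 : op q c 3 3 (φ 3) - (q : ℤ) • y - (op q c 3 3 y - (q : ℤ) • y) =
        op q c 3 3 (φ 3) - op q c 3 3 y := by abel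
    rwa [h6] at h5
  obtain ⟨ψ, h4, _⟩ := h2.step h3
  obtain ⟨ψ', h5⟩ := h4.extend hc hX M
  exact ⟨ψ', h5.mono (by omega)⟩

end Pool.Agent.N504.KB
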