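import Pool.Agent.N504.KB.Kun

/-! The group `SU(2)`: elements, topology, homology, power maps. -/

set_option autoImplicit false

namespace Pool.Agent.N504.KB

open Finsupp Matrix
open Pool.Agent.H904R2 Pool.Agent.H904R2.Sph Pool.Agent.H904R2.Deg
open Pool.Agent.Helper922.HB.Sc (Sing sface sbd sbd_sbd slice vert Dl)
open scoped ComplexConjugate

/-- the group `SU(2)` -/
abbrev SU2 : Type := Matrix.specialUnitaryGroup (Fin 2) ℂ

theorem su2_star (g : SU2) : star g.1 = adjugate g.1 := by
  have h1 : g.1 ∈ unitaryGroup (Fin 2) ℂ := (mem_specialUnitaryGroup_iff.1 g.2).1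
  have h2 : g.1.det = 1 := (mem_specialUnitaryGroup_iff.1 g.2).2
  have h3 : star g.1 * g.1 = 1 := (mem_unitaryGroup_iff').1 h1
  have h4 : g.1 * adjugate g.1 = 1 := by rw [mul_adjugate, h2, one_smul]
  calc star g.1 = star g.1 * (g.1 * adjugate g.1) := by rw [h4, mul_one]
    _ = adjugate g.1 := by rw [← mul_assoc, h3, one_mul]

theorem su2_11 (g : SU2) : g.1 1 1 = conj (g.1 0 0) := by
  have h := congrFun (congrFun (su2_star g) 0) 0
  rw [adjugate_fin_two] at h
  simpa [Matrix.star_apply] using h.symm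

theorem su2_01 (g : SU2) : g.1 0 1 = - conj (g.1 1 0) := by
  have h := congrFun (congrFun (su2_star g) 0) 1
  rw [adjugate_fin_two] at h
  simp only [Matrix.star_apply, of_apply, cons_val', cons_val_one, cons_val_zero] at h
  have h' : conj (g.1 1 0) = - g.1 0 1 := by simpa using h
  rw [h', neg_neg]

theorem su2_ext {g h : SU2} (h0 : g.1 0 0 = h.1 0 0) (h1 : g.1 1 0 = h.1 1 0) : g = h := by
  apply Subtype.ext
  ext i j
  fin_cases i <;> fin_cases j
  · exact h0
  · change g.1 0 1 = h.1 0 1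
    rw [su2_01, su2_01, h1]
  · exact h1
  · change g.1 1 1 = h.1 1 1
    rw [su2_11, su2_11, h0]

theorem su2_norm (g : SU2) : Complex.normSq (g.1 0 0) + Complex.normSq (g.1 1 0) = 1 := by
  have h2 : g.1.det = 1 := (mem_specialUnitaryGroup_iff.1 g.2).2
  rw [det_fin_two, su2_11, su2_01] at h2
  have h3 : ((Complex.normSq (g.1 0 0) + Complex.normSq (g.1 1 0) : ℝ) : ℂ) = 1 := by
    rw [Complex.ofReal_add, Complex.normSq_eq_conj_mul_self, Complex.normSq_eq_conj_mul_self,
      ← h2]
    ring
  exact_mod_cast h3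

/-- the element of `SU(2)` with first column `(a, b)` -/
noncomputable def mkS (a b : ℂ) (h : Complex.normSq a + Complex.normSq b = 1) : SU2 :=
  ⟨!![a, -conj b; b, conj a], by
    have h' : (Complex.normSq a : ℂ) + Complex.normSq b = 1 := by exact_mod_cast h
    rw [Complex.normSq_eq_conj_mul_self, Complex.normSq_eq_conj_mul_self] at h'
    rw [mem_specialUnitaryGroup_iff]
    constructor
    · rw [mem_unitaryGroup_iff]
      ext i j
      fin_cases i <;> fin_cases j <;>
        simp [Matrix.mul_apply, Fin.sum_univ_two, Matrix.star_apply] <;>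
        first
        | linear_combination h'
        | ring
    · rw [det_fin_two_of]
      linear_combination h'⟩

@[simp] theorem mkS_00 (a b : ℂ) (h) : (mkS a b h).1 0 0 = a := rfl
@[simp] theorem mkS_10 (a b : ℂ) (h) : (mkS a b h).1 1 0 = b := rfl
@[simp] theorem mkS_01 (a b : ℂ) (h) : (mkS a b h).1 0 1 = -conj b := rfl
@[simp] theorem mkS_11 (a b : ℂ) (h) : (mkS a b h).1 1 1 = conj a := rfl

theorem mul_00 (g h : SU2) : (g * h).1 0 0 = g.1 0 0 * h.1 0 0 - conj (g.1 1 0) * h.1 1 0 := by
  change (g.1 * h.1) 0 0 = _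
  rw [Matrix.mul_apply, Fin.sum_univ_two, su2_01 g]
  ring

theorem mul_10 (g h : SU2) : (g * h).1 1 0 = g.1 1 0 * h.1 0 0 + conj (g.1 0 0) * h.1 1 0 := by
  change (g.1 * h.1) 1 0 = _
  rw [Matrix.mul_apply, Fin.sum_univ_two, su2_11 g]

theorem inv_00 (g : SU2) : (g⁻¹).1 0 0 = conj (g.1 0 0) := rfl

theorem inv_10 (g : SU2) : (g⁻¹).1 1 0 = - g.1 1 0 := by
  have h : (g⁻¹).1 1 0 = conj (g.1 0 1) := rfl
  rw [h, su2_01, map_neg, Complex.conj_conj]

theorem one_00 : (1 : SU2).1 0 0 = 1 := rfl
theorem one_10 : (1 : SU2).1 1 0 = 0 := rfl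

instance : ContinuousInv SU2 where
  continuous_inv := by
    apply Continuous.subtype_mk
    exact continuous_star.comp continuous_subtype_val

instance : IsTopologicalGroup SU2 where

theorem continuous_00 : Continuous fun g : SU2 => g.1 0 0 :=
  (continuous_apply_apply (0 : Fin 2) (0 : Fin 2)).comp continuous_subtype_val

theorem continuous_10 : Continuous fun g : SU2 => g.1 1 0 :=
  (continuous_apply_apply (1 : Fin 2) (0 : Fin 2)).comp continuous_subtype_val

theorem continuous_mkS {Y : Type} [TopologicalSpace Y] (a b : Y → ℂ) (ha : Continuous a)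
    (hb : Continuous b) (h : ∀ y, Complex.normSq (a y) + Complex.normSq (b y) = 1) :
    Continuous fun y => mkS (a y) (b y) (h y) := by
  apply Continuous.subtype_mk
  refine continuous_matrix fun i j => ?_
  fin_cases i <;> fin_cases j <;> simp <;> fun_prop

/-! ### comparison with punctured `ℝ⁴` -/

/-- first column -/
noncomputable def colv (g : SU2) : Fin 2 → ℂ := fun i => g.1 i 0

theorem continuous_colv : Continuous colv :=
  continuous_pi fun i => (continuous_apply_apply i (0 : Fin 2)).comp continuous_subtype_val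

theorem colv_ne (g : SU2) : colv g ≠ 0 := by
  intro h
  have h0 : g.1 0 0 = 0 := congrFun h 0
  have h1 : g.1 1 0 = 0 := congrFun h 1
  have := su2_norm g
  rw [h0, h1] at this
  simp at this

/-- `SU(2) → ℝ⁴ ∖ 0` -/
noncomputable def toP : C(SU2, Pc 4) :=
  ⟨fun g => ⟨fromC 2 (colv g), fun h => colv_ne g (by
    rw [← toC_fromC 2 (colv g), h]
    funext l
    simp [toC])⟩, by
    apply Continuous.subtype_mk
    exact (continuous_fromC 2).comp continuous_colv⟩

theorem toC_toP (g : SU2) : toC 2 (toP g).1 = colv g := toC_fromC _ _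

/-- norm of a vector of `ℂ²` -/
noncomputable def nrm (w : Fin 2 → ℂ) : ℝ := Real.sqrt (Complex.normSq (w 0) + Complex.normSq (w 1))

theorem nrm_pos {w : Fin 2 → ℂ} (h : w ≠ 0) : 0 < nrm w := by
  apply Real.sqrt_pos.2
  by_contra hc
  have h0 := Complex.normSq_nonneg (w 0)
  have h1 := Complex.normSq_nonneg (w 1)
  have e0 : w 0 = 0 := Complex.normSq_eq_zero.1 (by linarith)
  have e1 : w 1 = 0 := Complex.normSq_eq_zero.1 (by linarith)
  apply h
  funext i
  fin_cases i
  · exact e0
  · exact e1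

theorem continuous_nrm : Continuous nrm := by
  unfold nrm
  refine Real.continuous_sqrt.comp ?_
  exact (Complex.continuous_normSq.comp (continuous_apply 0)).add
    (Complex.continuous_normSq.comp (continuous_apply 1))

theorem nrm_sq {w : Fin 2 → ℂ} : nrm w ^ 2 = Complex.normSq (w 0) + Complex.normSq (w 1) :=
  Real.sq_sqrt (add_nonneg (Complex.normSq_nonneg _) (Complex.normSq_nonneg _))

theorem normal_unit {w : Fin 2 → ℂ} (h : w ≠ 0) :
    Complex.normSq (w 0 / (nrm w : ℂ)) + Complex.normSq (w 1 / (nrm w : ℂ)) = 1 := by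
  have hp := nrm_pos h
  rw [Complex.normSq_div, Complex.normSq_div, Complex.normSq_ofReal, ← add_div, ← nrm_sq, sq]
  field_simp

theorem toC_ne (v : Pc 4) : toC 2 v.1 ≠ 0 := fun h => v.2 (toC_eq_zero 2 _ h)

/-- `ℝ⁴ ∖ 0 → SU(2)` -/
noncomputable def ofP : C(Pc 4, SU2) :=
  ⟨fun v => mkS (toC 2 v.1 0 / (nrm (toC 2 v.1) : ℂ)) (toC 2 v.1 1 / (nrm (toC 2 v.1) : ℂ))
      (normal_unit (toC_ne v)), by
    have h0 : Continuous fun v : Pc 4 => toC 2 v.1 := (continuous_toC 2).comp continuous_subtype_val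
    have h1 : Continuous fun v : Pc 4 => ((nrm (toC 2 v.1) : ℝ) : ℂ) :=
      Complex.continuous_ofReal.comp (continuous_nrm.comp h0)
    refine continuous_mkS _ _ ?_ ?_ _
    · exact ((continuous_apply 0).comp h0).div h1 fun v => by
        exact_mod_cast (nrm_pos (toC_ne v)).ne'
    · exact ((continuous_apply 1).comp h0).div h1 fun v => by
        exact_mod_cast (nrm_pos (toC_ne v)).ne'⟩

theorem nrm_colv (g : SU2) : nrm (colv g) = 1 := by
  unfold nrm colv
  rw [su2_norm g, Real.sqrt_one]

theorem ofP_toP (g : SU2) : ofP (toP g) = g := by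
  apply su2_ext
  · change toC 2 (toP g).1 0 / (nrm (toC 2 (toP g).1) : ℂ) = _
    rw [toC_toP, nrm_colv]
    simp [colv]
  · change toC 2 (toP g).1 1 / (nrm (toC 2 (toP g).1) : ℂ) = _
    rw [toC_toP, nrm_colv]
    simp [colv]

theorem ofP_comp_toP : ofP.comp toP = ContinuousMap.id SU2 := ContinuousMap.ext ofP_toP

theorem su2_acyc (m : ℕ) (h : m ≠ 3) : RAcyc SU2 m := by
  intro z hz
  have h1 := bdy_psh ofP (pc_acyc 3 m h _ (cyc_psh toP hz))
  rwa [psh_comp, ofP_comp_toP, psh_id] at h1

instance : PathConnectedSpace (Pc 4) := by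
  have h : IsPathConnected ({0}ᶜ : Set (Fin 4 → ℝ)) := by
    apply isPathConnected_compl_singleton_of_one_lt_rank
    simp
  have h2 := isPathConnected_iff_pathConnectedSpace.1 h
  exact h2

instance : PathConnectedSpace SU2 :=
  Function.Surjective.pathConnectedSpace (f := ofP) (fun g => ⟨toP g, ofP_toP g⟩) ofP.continuous

end Pool.Agent.N504.KB
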