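import Pool.Agent.N504.KB.Res
import Pool.Agent.W374.FbsBU
import Pool.Agent.W374.FbsStepW

/-! From singular chains to chains of lists of points. -/

set_option autoImplicit false

namespace Pool.Agent.N504.KB

open Finsupp
open Pool.Agent.H904R2 Pool.Agent.H904R2.Sph
open Pool.Agent.Helper922.HB.Sc (Sing sface sbd sbd_sbd slice vert aff aff_vert sface_eq smallSet)
open Pool.Agent.W435.FB (bdl bd opn act)

variable {X Y : Type} [TopologicalSpace X] [TopologicalSpace Y]

/-- vertices of a simplex -/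
noncomputable def vls {n : ℕ} (σ : Sing X n) : List X := List.ofFn (fun i => σ (vert n i))

/-- vertex lists of chains -/
noncomputable def vl (q n : ℕ) : Ch X n →ₗ[ℤ] (List X →₀ ZMod q) :=
  Finsupp.linearCombination ℤ (fun σ => Finsupp.single (vls σ) (1 : ZMod q))

theorem vl_single (q n : ℕ) (σ : Sing X n) :
    vl q n (single σ 1) = Finsupp.single (vls σ) (1 : ZMod q) := by
  rw [vl, linearCombination_single, one_smul]

theorem bdl_ofFn {P : Type} (q : ℕ) : ∀ (n : ℕ) (v : Fin (n + 1) → P),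
    bdl q (List.ofFn v) = ∑ i : Fin (n + 1), ((-1 : ℤ) ^ (i : ℕ)) •
      Finsupp.single (List.ofFn (fun j => v (i.succAbove j))) (1 : ZMod q) := by
  intro n
  induction n with
  | zero =>
    intro v
    rw [List.ofFn_succ, Pool.Agent.W374.FBS.bdl_cons, List.ofFn_zero, Pool.Agent.W374.FBS.bdl_nil]
    simp
  | succ n ih =>
    intro v
    rw [List.ofFn_succ, Pool.Agent.W374.FBS.bdl_cons, Fin.sum_univ_succ, ih]
    have h0 : (fun j => v ((0 : Fin (n + 2)).succAbove j)) = fun j => v j.succ := by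
      funext j
      rw [Fin.zero_succAbove]
    rw [h0, map_sum, sub_eq_add_neg, ← Finset.sum_neg_distrib]
    congr 1
    · simp
    · refine Finset.sum_congr rfl fun i _ => ?_
      rw [map_zsmul, Pool.Agent.W374.FBS.cn_single, ← neg_smul]
      congr 1
      · rw [Fin.val_succ, pow_succ]; ring
      · congr 1
        rw [List.ofFn_succ]
        congr 1
        congr 1
        funext j
        rw [Fin.succ_succAbove_succ]

theorem vls_sface {n : ℕ} (i : Fin (n + 2)) (σ : Sing X (n + 1)) :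
    vls (sface n i σ) = List.ofFn (fun j => σ (vert (n + 1) (i.succAbove j))) := by
  unfold vls
  congr 1
  funext j
  rw [sface_eq]
  change σ (aff _ (vert n j)) = _
  rw [aff_vert]

/-- linear maps on chains that agree on simplices are equal -/
theorem ch_ext {M : Type} [AddCommGroup M] {m : ℕ} {L L' : Ch X m →ₗ[ℤ] M}
    (h : ∀ σ, L (single σ 1) = L' (single σ 1)) (z : Ch X m) : L z = L' z := by
  have : L = L' := by
    apply Finsupp.lhom_ext'
    intro σ
    apply LinearMap.ext_ring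
    exact h σ
  rw [this]

theorem vl_sbd (q n : ℕ) (z : Ch X (n + 1)) : vl q n (sbd X n z) = bd q (vl q (n + 1) z) := by
  refine ch_ext (L := (vl q n).comp (sbd X n))
    (L' := ((bd q : (List X →₀ ZMod q) →ₗ[ZMod q] (List X →₀ ZMod q)).restrictScalars ℤ).comp
      (vl q (n + 1))) (fun σ => ?_) z
  simp only [LinearMap.comp_apply, LinearMap.restrictScalars_apply]
  rw [vl_single, Pool.Agent.W374.FBS.bd_single_one, sbd_single, map_sum, vls, bdl_ofFn]
  refine Finset.sum_congr rfl fun i _ => ?_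
  rw [map_smul, vl_single, vls_sface]

theorem bd_vl_zero (q : ℕ) (z : Ch X 0) :
    bd q (vl q 0 z) = (aug X 0 z) • Finsupp.single [] (1 : ZMod q) := by
  refine ch_ext (L := ((bd q : (List X →₀ ZMod q) →ₗ[ZMod q] (List X →₀ ZMod q)).restrictScalars ℤ).comp
      (vl q 0))
    (L' := (LinearMap.toSpanSingleton ℤ (List X →₀ ZMod q) (Finsupp.single [] (1 : ZMod q))).comp
      (aug X 0)) (fun σ => ?_) z
  simp only [LinearMap.comp_apply, LinearMap.restrictScalars_apply,
    LinearMap.toSpanSingleton_apply]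
  rw [vl_single, Pool.Agent.W374.FBS.bd_single_one, vls, bdl_ofFn, aug_single]
  simp

theorem vls_comp {n : ℕ} (f : C(X, Y)) (σ : Sing X n) :
    vls (f.comp σ : Sing Y n) = (vls σ).map f := by
  unfold vls
  rw [List.map_ofFn]
  rfl

theorem vl_psh (q n : ℕ) (c : C(X, X)) (z : Ch X n) :
    vl q n (psh c n z) = act q c (vl q n z) := by
  refine ch_ext (L := (vl q n).comp (psh c n))
    (L' := ((act q c : (List X →₀ ZMod q) →ₗ[ZMod q] (List X →₀ ZMod q)).restrictScalars ℤ).comp
      (vl q n)) (fun σ => ?_) z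
  simp only [LinearMap.comp_apply, LinearMap.restrictScalars_apply]
  rw [psh_single, vl_single, vl_single, Pool.Agent.W374.FBS.act_single, vls_comp]

theorem vl_pow (q n j : ℕ) (c : C(X, X)) (z : Ch X n) :
    vl q n (((psh c n : Module.End ℤ (Ch X n)) ^ j) z) = act q (c^[j]) (vl q n z) := by
  rw [psh_pow c j n z ⟨c^[j], c.continuous.iterate j⟩ (fun _ => rfl), vl_psh]
  rfl

theorem vl_op (q i n : ℕ) (c : C(X, X)) (z : Ch X n) :
    vl q n (op q c i n z) = opn q c i (vl q n z) := by
  unfold op opn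
  split_ifs
  · rw [LinearMap.sub_apply, map_sub, vl_psh]
    rfl
  · rw [LinearMap.sum_apply, LinearMap.sum_apply, map_sum]
    exact Finset.sum_congr rfl fun j _ => vl_pow q n j c z

/-! ### small chains -/

section Small

open Pool.Agent.Helper922.HB.Sc (Sd Sd_iter_small good_small_le mm push sbd_Sd)

theorem Sd_psh (k : ℕ) (f : C(X, Y)) (z : Ch X k) :
    Sd Y k (psh f k z) = psh f k (Sd X k z) := by
  refine ch_ext (L := (Sd Y k).comp (psh f k)) (L' := (psh f k).comp (Sd X k)) (fun σ => ?_) z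
  simp only [LinearMap.comp_apply]
  rw [psh_single, Sd, Sd, linearCombination_single, linearCombination_single, one_smul, one_smul]
  generalize (Pool.Agent.Helper922.HB.Sc.sd k k (single (vert k) 1)) = w
  have : push (f.comp σ : Sing Y k) k = (psh f k).comp (push σ k) := by
    apply Finsupp.lhom_ext'
    intro a
    apply LinearMap.ext_ring
    simp only [LinearMap.comp_apply, lsingle_apply]
    rw [Pool.Agent.Helper922.HB.Sc.push_single, Pool.Agent.Helper922.HB.Sc.push_single, psh_single]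
    rfl
  rw [this]
  rfl

theorem Sd_iter_psh (k m : ℕ) (f : C(X, Y)) (z : Ch X k) :
    (⇑(Sd Y k))^[m] (psh f k z) = psh f k ((⇑(Sd X k))^[m] z) := by
  induction m with
  | zero => rfl
  | succ m ih => rw [Function.iterate_succ_apply', Function.iterate_succ_apply', ih, Sd_psh]

/-- iterated subdivision as a linear map -/
noncomputable def SdI (X : Type) [TopologicalSpace X] (k m : ℕ) : Module.End ℤ (Ch X k) :=
  (Sd X k : Module.End ℤ (Ch X k)) ^ m

theorem SdI_apply (k m : ℕ) (z : Ch X k) : SdI X k m z = (⇑(Sd X k))^[m] z := by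
  unfold SdI
  rw [Module.End.pow_apply]

theorem SdI_psh (k m : ℕ) (f : C(X, Y)) (z : Ch X k) :
    SdI Y k m (psh f k z) = psh f k (SdI X k m z) := by
  rw [SdI_apply, SdI_apply, Sd_iter_psh]

theorem sbd_SdI (k m : ℕ) (z : Ch X (k + 1)) :
    sbd X k (SdI X (k + 1) m z) = SdI X k m (sbd X k z) := by
  rw [SdI_apply, SdI_apply]
  induction m with
  | zero => rfl
  | succ m ih =>
    rw [Function.iterate_succ_apply', Function.iterate_succ_apply', ← ih]
    exact sbd_Sd k _

theorem SdI_pow (k m j : ℕ) (c : C(X, X)) (z : Ch X k) :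
    SdI X k m (((psh c k : Module.End ℤ (Ch X k)) ^ j) z) =
      ((psh c k : Module.End ℤ (Ch X k)) ^ j) (SdI X k m z) := by
  induction j with
  | zero => rfl
  | succ j ih =>
    rw [pow_succ', Module.End.mul_apply, Module.End.mul_apply, SdI_psh, ih]

theorem SdI_op (q k m i : ℕ) (c : C(X, X)) (z : Ch X k) :
    SdI X k m (op q c i k z) = op q c i k (SdI X k m z) := by
  unfold op
  split_ifs
  · rw [LinearMap.sub_apply, LinearMap.sub_apply, map_sub, SdI_psh]
    rfl
  · rw [LinearMap.sum_apply, LinearMap.sum_apply, map_sum]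
    exact Finset.sum_congr rfl fun j _ => SdI_pow k m j c z

theorem aug_Sd (z : Ch X 0) : Sd X 0 z = z := by
  refine ch_ext (L := Sd X 0) (L' := LinearMap.id) (fun σ => ?_) z
  rw [← Pool.Agent.Helper922.HB.Sc.push_vert, Pool.Agent.Helper922.HB.Sc.Sd_push,
    Pool.Agent.Helper922.HB.Sc.sd_zero]
  rfl

theorem SdI_zero (m : ℕ) (z : Ch X 0) : SdI X 0 m z = z := by
  rw [SdI_apply]
  induction m with
  | zero => rfl
  | succ m ih => rw [Function.iterate_succ_apply', ih, aug_Sd]

variable (𝒞 : Set (Set X))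

theorem exists_small (hopen : ∀ C ∈ 𝒞, IsOpen C) (hcov : ∀ x : X, ∃ C ∈ 𝒞, x ∈ C) (k : ℕ)
    (z : Ch X k) : ∃ m0, ∀ m ≥ m0, SdI X k m z ∈ Finsupp.supported ℤ ℤ (smallSet 𝒞 k) := by
  induction z using Finsupp.induction_linear with
  | zero => exact ⟨0, fun m _ => by rw [map_zero]; exact Submodule.zero_mem _⟩
  | add f g hf hg =>
    obtain ⟨m1, h1⟩ := hf
    obtain ⟨m2, h2⟩ := hg
    refine ⟨max m1 m2, fun m hm => ?_⟩
    rw [map_add]
    exact Submodule.add_mem _ (h1 m (le_trans (le_max_left _ _) hm))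
      (h2 m (le_trans (le_max_right _ _) hm))
  | single σ a =>
    refine ⟨mm 𝒞 σ, fun m hm => ?_⟩
    have h1 : (single σ a : Ch X k) = a • single σ 1 := by simp
    rw [h1, map_smul, SdI_apply]
    exact Submodule.smul_mem _ _ (good_small_le 𝒞 hopen hcov σ m hm)

theorem IsSys.small (hopen : ∀ C ∈ 𝒞, IsOpen C) (hcov : ∀ x : X, ∃ C ∈ 𝒞, x ∈ C) {q : ℕ}
    {c : C(X, X)} {M : ℕ} {φ : ∀ n, Ch X n} (h : IsSys q c M φ) :
    ∃ φ' : ∀ n, Ch X n, IsSys q c M φ' ∧
      ∀ n ≤ M, φ' n ∈ Finsupp.supported ℤ ℤ (smallSet 𝒞 n) := by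
  choose m0 hm0 using fun n => exists_small 𝒞 hopen hcov n (φ n)
  set m := (Finset.range (M + 1)).sup m0 with hm
  refine ⟨fun n => SdI X n m (φ n), ⟨?_, fun n hn => ?_⟩, fun n hn => ?_⟩
  · change aug X 0 (SdI X 0 m (φ 0)) = 1
    rw [SdI_zero, h.1]
  · change sbd X n (SdI X (n + 1) m (φ (n + 1))) = _
    rw [sbd_SdI, h.2 n hn, SdI_op]
  · exact hm0 n m (Finset.le_sup (f := m0) (Finset.mem_range.2 (by omega)))

end Small

end Pool.Agent.N504.KB
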