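import Pool.Agent.N504.KB.Bun
import Pool.Agent.N504.KB.BU

/-! Chain systems on the space of pairs `(a, a')` with `ψ(π a) = π a'`. -/

set_option autoImplicit false

namespace Pool.Agent.N504.KB

open Finsupp
open Pool.Agent.H904R2 Pool.Agent.H904R2.Sph
open Pool.Agent.Helper922.HB.Sc (Sing sface sbd sbd_sbd slice vert Dl)
open Pool.Agent.N504.Kinetic (UniversalBundle SU2Action Assoc Pullback orbitSetoid HasLoopDegree
  HasDegree)

variable {P B : Type} [TopologicalSpace P] [TopologicalSpace B]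
  [MulAction SU2 P] [ContinuousSMul SU2 P]

section

variable (E : UniversalBundle P B) (ψ : C(B, B)) (Ψ : C(P, P))
  (hΨ : ∀ a, E.π (Ψ a) = ψ (E.π a))

/-- the fibre coordinate -/
noncomputable def prZ : C(Zt E ψ, SU2) :=
  ⟨fun z => dlt E ⟨(Ψ z.1.1, z.1.2), (hΨ z.1.1).trans z.2⟩, by
    apply (continuous_dlt E).comp
    fun_prop⟩

theorem prZ_smul (z : Zt E ψ) : prZ E ψ Ψ hΨ z • Ψ z.1.1 = z.1.2 :=
  dlt_smul E ⟨(Ψ z.1.1, z.1.2), (hΨ z.1.1).trans z.2⟩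

theorem prZ_eq (z : Zt E ψ) {g : SU2} (h : g • Ψ z.1.1 = z.1.2) : prZ E ψ Ψ hΨ z = g :=
  dlt_eq E ⟨(Ψ z.1.1, z.1.2), (hΨ z.1.1).trans z.2⟩ h

/-- the point `(a, h Ψ(a))` -/
noncomputable def ptZ : C(P × SU2, Zt E ψ) :=
  ⟨fun x => ⟨(x.1, x.2 • Ψ x.1), by
    change ψ (E.π x.1) = E.π (x.2 • Ψ x.1)
    rw [E.π_smul, hΨ]⟩, by fun_prop⟩

/-- inclusion of a fibre -/
noncomputable def ioZ (a0 : P) : C(SU2, Zt E ψ) :=
  (ptZ E ψ Ψ hΨ).comp ((ContinuousMap.const SU2 a0).prodMk (ContinuousMap.id SU2))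

theorem zt_cls : ∃ a0 : P, ∀ (m : ℕ) (z : Ch (Zt E ψ) m), IsCyc m z →
    IsBdy m (psh (ioZ E ψ Ψ hΨ a0) m (psh (prZ E ψ Ψ hΨ) m z) - z) := by
  have := E.contractible
  obtain ⟨a0, ⟨K⟩⟩ := id_nullhomotopic P
  refine ⟨a0, fun m z hz => ?_⟩
  set H : C(Zt E ψ × unitInterval, Zt E ψ) :=
    (ptZ E ψ Ψ hΨ).comp ⟨fun x => (K (x.2, x.1.1.1), prZ E ψ Ψ hΨ x.1), by fun_prop⟩ with hH
  have h := homotopy_bdy H hz
  have e0 : slice H 0 = ContinuousMap.id _ := by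
    ext x
    · change K (0, x.1.1) = x.1.1
      rw [K.apply_zero]
      rfl
    · change prZ E ψ Ψ hΨ x • Ψ (K (0, x.1.1)) = x.1.2
      rw [K.apply_zero]
      exact prZ_smul E ψ Ψ hΨ x
  have e1 : slice H 1 = (ioZ E ψ Ψ hΨ a0).comp (prZ E ψ Ψ hΨ) := by
    ext x
    · change K (1, x.1.1) = a0
      rw [K.apply_one]
      rfl
    · change prZ E ψ Ψ hΨ x • Ψ (K (1, x.1.1)) = prZ E ψ Ψ hΨ x • Ψ a0
      rw [K.apply_one]
      rfl
  rw [e0, e1, psh_id, ← psh_comp] at h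
  exact h

include hΨ in
theorem zt_acyc (m : ℕ) (hm : m ≠ 3) : RAcyc (Zt E ψ) m := by
  obtain ⟨a0, h0⟩ := zt_cls E ψ Ψ hΨ
  intro z hz
  have h1 := h0 m z hz
  have h2 := bdy_psh (ioZ E ψ Ψ hΨ a0) (su2_acyc m hm _ (cyc_psh (prZ E ψ Ψ hΨ) hz))
  have h3 := bdy_sub h2 h1
  rwa [sub_sub_cancel] at h3

/-- the action of an element of `SU(2) × SU(2)` -/
def actC (g g' : SU2) : C(Zt E ψ, Zt E ψ) :=
  ⟨actZ E ψ g g', by
    unfold actZ
    fun_prop⟩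

theorem actC_triv (g g' : SU2) (m : ℕ) (z : Ch (Zt E ψ) m) (hz : IsCyc m z) :
    IsBdy m (psh (actC E ψ g g') m z - z) := by
  obtain ⟨γ⟩ := PathConnectedSpace.joined (1 : SU2) g
  obtain ⟨γ'⟩ := PathConnectedSpace.joined (1 : SU2) g'
  set H : C(Zt E ψ × unitInterval, Zt E ψ) :=
    ⟨fun x => actZ E ψ (γ x.2) (γ' x.2) x.1, by
      unfold actZ
      fun_prop⟩ with hH
  have h := homotopy_bdy H hz
  have e0 : slice H 0 = ContinuousMap.id _ := by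
    ext x
    · change γ 0 • x.1.1 = x.1.1
      rw [γ.source, one_smul]
    · change γ' 0 • x.1.2 = x.1.2
      rw [γ'.source, one_smul]
  have e1 : slice H 1 = actC E ψ g g' := by
    ext x
    · change γ 1 • x.1.1 = g • x.1.1
      rw [γ.target]
    · change γ' 1 • x.1.2 = g' • x.1.2
      rw [γ'.target]
  rw [e0, e1, psh_id] at h
  exact h

theorem actC_iter (g g' : SU2) (q : ℕ) (hg : g ^ q = 1) (hg' : g' ^ q = 1) (z : Zt E ψ) :
    (actC E ψ g g')^[q] z = z := by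
  have h : ∀ n : ℕ, ((actC E ψ g g')^[n] z).1 = (g ^ n • z.1.1, g' ^ n • z.1.2) := by
    intro n
    induction n with
    | zero => simp
    | succ n ih =>
      rw [Function.iterate_succ_apply']
      change (g • ((actC E ψ g g')^[n] z).1.1, g' • ((actC E ψ g g')^[n] z).1.2) = _
      rw [ih, pow_succ', pow_succ', mul_smul, mul_smul]
  apply Subtype.ext
  rw [h, hg, hg', one_smul, one_smul]

include hΨ in
/-- the main system -/
theorem zt_sys (q : ℕ) (g g' : SU2) (hg : g ^ q = 1) (hg' : g' ^ q = 1) (s D θ : C(SU2, SU2))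
    (hs : ∀ x, s (g * x) = g' * s x) (a1 : P) (hθ : ∀ x : SU2, Ψ (x • a1) = θ x • Ψ a1)
    (hD : ∀ x, D x = s x * (θ x)⁻¹)
    (hcls : ∀ w : Ch SU2 3, IsCyc 3 w → ∃ y : Ch SU2 3, IsCyc 3 y ∧
      IsBdy 3 (psh D 3 w - (q : ℤ) • y)) (M : ℕ) :
    ∃ φ : ∀ n, Ch (Zt E ψ) n, IsSys q (actC E ψ g g') M φ := by
  obtain ⟨a0, h0⟩ := zt_cls E ψ Ψ hΨ
  set c0 : C(SU2, SU2) := ⟨fun x => g * x, continuous_const_mul g⟩ with hc0
  have hc0q : ∀ x, c0^[q] x = x := by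
    intro x
    have h : ∀ n : ℕ, c0^[n] x = g ^ n * x := by
      intro n
      induction n with
      | zero => simp
      | succ n ih =>
        rw [Function.iterate_succ_apply', ih, pow_succ', mul_assoc]
        rfl
    rw [h, hg, one_mul]
  obtain ⟨φ, hφ⟩ := exists_sys hc0q (1 : SU2) 3 (fun n hn => su2_acyc n (by omega))
  set H : C(SU2, Zt E ψ) := ⟨fun x => ⟨(x • a1, s x • Ψ a1), by
    change ψ (E.π (x • a1)) = E.π (s x • Ψ a1)
    rw [E.π_smul, E.π_smul, hΨ]⟩, by fun_prop⟩ with hH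
  have hHe : ∀ x, H (c0 x) = actC E ψ g g' (H x) := by
    intro x
    apply Subtype.ext
    apply Prod.ext
    · change (g * x) • a1 = g • x • a1
      rw [mul_smul]
    · change s (g * x) • Ψ a1 = g' • s x • Ψ a1
      rw [hs, mul_smul]
  have hsys := hφ.push H hHe
  have hw := hφ.cyc hc0q
  set w := op q c0 3 3 (φ 3) with hwd
  obtain ⟨y, hy, hyw⟩ := hcls w hw
  have hprH : (prZ E ψ Ψ hΨ).comp H = D := by
    refine ContinuousMap.ext fun x => prZ_eq E ψ Ψ hΨ (H x) ?_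
    change D x • Ψ (x • a1) = s x • Ψ a1
    rw [hD, hθ, mul_smul, inv_smul_smul]
  refine sys_all (actC_iter E ψ g g' q hg hg') (fun z hz => actC_triv E ψ g g' 3 z hz)
    (fun n hn => zt_acyc E ψ Ψ hΨ n (by omega)) _ hsys (psh (ioZ E ψ Ψ hΨ a0) 3 y)
    (cyc_psh _ hy) ?_ M
  rw [← op_psh q c0 (actC E ψ g g') H hHe, ← hwd]
  have h1 := h0 3 (psh H 3 w) (cyc_psh H hw)
  rw [psh_comp H, hprH] at h1
  have h2 := bdy_psh (ioZ E ψ Ψ hΨ a0) hyw
  rw [map_sub, map_smul] at h2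
  have h3 := bdy_sub h2 h1
  have e : ∀ a b c : Ch (Zt E ψ) 3, a - b - (a - c) = c - b := fun a b c => by abel
  rwa [e] at h3

end

end Pool.Agent.N504.KB
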